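import Pool.Agent.SYA.Targets

/-!
# Project SYA: `x^(2^a) y^(2^b) = c` has at most two solutions in a small box
-/

set_option autoImplicit false

namespace Pool.Agent.SYA

namespace ARI_

lemma zpow_ne {G : Type} [CommGroup G] {x : G} {K : ℕ} (hx : ∀ j, 1 ≤ j → j < K → x ^ j ≠ 1)
    {e : ℤ} (he : x ^ e = 1) (hK : |e| < K) : e = 0 := by
  by_contra h
  have h1 : 1 ≤ e.natAbs := Nat.one_le_iff_ne_zero.2 (Int.natAbs_ne_zero.2 h)
  have h2 : e.natAbs < K := by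
    rw [Int.abs_eq_natAbs] at hK
    exact_mod_cast hK
  apply hx _ h1 h2
  rcases Int.natAbs_eq e with h3 | h3
  · rw [h3] at he
    exact_mod_cast he
  · rw [h3, zpow_neg, inv_eq_one] at he
    exact_mod_cast he

lemma pow_lt {L a : ℕ} (ha : a < L) : (2 : ℤ) * 2 ^ a ≤ 2 ^ L := by
  have h : (2 : ℤ) ^ (a + 1) ≤ 2 ^ L := pow_le_pow_right₀ (by norm_num) ha
  rw [pow_succ] at h
  linarith

/-- different exponents of `2` give different powers -/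
lemma inj {G : Type} [CommGroup G] {x : G} {K L : ℕ} (hx : ∀ j, 1 ≤ j → j < K → x ^ j ≠ 1)
    (hK : 2 ^ (2 * L) ≤ K) {a a' : ℕ} (ha : a < L) (ha' : a' < L)
    (h : x ^ (2 ^ a) = x ^ (2 ^ a')) : a = a' := by
  have h1 : x ^ ((2 : ℤ) ^ a - 2 ^ a') = 1 := by
    rw [zpow_sub, mul_inv_eq_one]
    exact_mod_cast h
  have hKz : (2 : ℤ) ^ L * 2 ^ L ≤ K := by
    rw [← pow_add, ← two_mul]
    exact_mod_cast hK
  have p1 := pow_lt ha
  have p2 := pow_lt ha'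
  have q1 : (0 : ℤ) < 2 ^ a := by positivity
  have q2 : (0 : ℤ) < 2 ^ a' := by positivity
  have q3 : (1 : ℤ) ≤ 2 ^ L := one_le_pow₀ (by norm_num)
  have h2 := zpow_ne hx h1 (by
    rw [abs_lt]
    constructor <;> nlinarith)
  have h3 : (2 : ℤ) ^ a = 2 ^ a' := by linarith
  have h4 : 2 ^ a = 2 ^ a' := by exact_mod_cast h3
  exact Nat.pow_right_injective (le_refl 2) h4

/-- the arithmetic of the first case -/
lemma case1 {a b c d : ℕ} (hab : a < b) (hcd : c < d) (hac : a < c)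
    (h : ((2 : ℤ) ^ a - 1) * (2 ^ d - 1) = (2 ^ b - 1) * (2 ^ c - 1)) : False := by
  have h1 : (2 : ℤ) ^ (a + 1) ∣ 2 ^ d := pow_dvd_pow 2 (by omega)
  have h2 : (2 : ℤ) ^ (a + 1) ∣ 2 ^ b := pow_dvd_pow 2 (by omega)
  have h3 : (2 : ℤ) ^ (a + 1) ∣ 2 ^ c := pow_dvd_pow 2 (by omega)
  have h4 : (2 : ℤ) ^ a = (2 ^ a - 1) * 2 ^ d + 2 ^ b - (2 ^ b - 1) * 2 ^ c := by
    linear_combination (-1 : ℤ) * h
  have h5 : (2 : ℤ) ^ (a + 1) ∣ 2 ^ a := by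
    have h6 : (2 : ℤ) ^ (a + 1) ∣ (2 ^ a - 1) * 2 ^ d + 2 ^ b - (2 ^ b - 1) * 2 ^ c :=
      dvd_sub (dvd_add (Dvd.dvd.mul_left h1 _) h2) (Dvd.dvd.mul_left h3 _)
    rwa [← h4] at h6
  have h6 := Int.le_of_dvd (by positivity) h5
  have h7 : (0 : ℤ) < 2 ^ a := by positivity
  rw [pow_succ] at h6
  linarith

/-- three solutions, sorted by the first exponent -/
lemma three {G : Type} [CommGroup G] {x y c : G} {K L : ℕ}
    (hx : ∀ j, 1 ≤ j → j < K → x ^ j ≠ 1) (hc : ∀ j, 1 ≤ j → j < K → c ^ j ≠ 1)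
    (hK : 2 ^ (2 * L) ≤ K) {a₁ a₂ a₃ b₁ b₂ b₃ : ℕ} (ha₁ : a₁ < L) (ha₂ : a₂ < L) (ha₃ : a₃ < L)
    (hb₁ : b₁ < L) (hb₂ : b₂ < L) (hb₃ : b₃ < L) (h12 : a₁ < a₂) (h23 : a₂ < a₃)
    (hb12 : b₁ ≠ b₂) (hb13 : b₁ ≠ b₃) (hb23 : b₂ ≠ b₃)
    (e₁ : x ^ (2 ^ a₁) * y ^ (2 ^ b₁) = c) (e₂ : x ^ (2 ^ a₂) * y ^ (2 ^ b₂) = c)
    (e₃ : x ^ (2 ^ a₃) * y ^ (2 ^ b₃) = c) : False := by
  have hKz : (2 : ℤ) ^ L * 2 ^ L ≤ K := by
    rw [← pow_add, ← two_mul]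
    exact_mod_cast hK
  have key : ∀ {a b a' b' : ℕ}, x ^ (2 ^ a) * y ^ (2 ^ b) = x ^ (2 ^ a') * y ^ (2 ^ b') →
      x ^ ((2 : ℤ) ^ a' - 2 ^ a) = y ^ ((2 : ℤ) ^ b - 2 ^ b') := by
    intro a b a' b' h
    have h' : x ^ ((2 : ℤ) ^ a) * y ^ ((2 : ℤ) ^ b) = x ^ ((2 : ℤ) ^ a') * y ^ ((2 : ℤ) ^ b') := by
      exact_mod_cast h
    rw [zpow_sub, zpow_sub, ← div_eq_mul_inv, ← div_eq_mul_inv, div_eq_div_iff_mul_eq_mul, ← h',
      mul_comm]
  have k1 := key (e₁.trans e₂.symm)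
  have k2 := key (e₁.trans e₃.symm)
  set A₁ : ℤ := 2 ^ a₁
  set A₂ : ℤ := 2 ^ a₂
  set A₃ : ℤ := 2 ^ a₃
  set B₁ : ℤ := 2 ^ b₁
  set B₂ : ℤ := 2 ^ b₂
  set B₃ : ℤ := 2 ^ b₃
  have k3 : x ^ ((A₂ - A₁) * (B₁ - B₃) - (A₃ - A₁) * (B₁ - B₂)) = 1 := by
    rw [zpow_sub, mul_inv_eq_one, zpow_mul, zpow_mul, k1, k2, ← zpow_mul, ← zpow_mul, mul_comm]
  have pa₁ := pow_lt ha₁
  have pa₂ := pow_lt ha₂
  have pa₃ := pow_lt ha₃
  have pb₁ := pow_lt hb₁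
  have pb₂ := pow_lt hb₂
  have pb₃ := pow_lt hb₃
  have qa₁ : 0 < A₁ := by positivity
  have qa₂ : 0 < A₂ := by positivity
  have qa₃ : 0 < A₃ := by positivity
  have qb₁ : 0 < B₁ := by positivity
  have qb₂ : 0 < B₂ := by positivity
  have qb₃ : 0 < B₃ := by positivity
  have hA12 : A₁ < A₂ := pow_lt_pow_right₀ (by norm_num) h12
  have hA23 : A₂ < A₃ := pow_lt_pow_right₀ (by norm_num) h23
  have hM : (0 : ℤ) < 2 ^ L := by positivity
  set M : ℤ := 2 ^ L with hMdef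
  -- the exponent vanishes
  have k4 : (A₂ - A₁) * (B₁ - B₃) - (A₃ - A₁) * (B₁ - B₂) = 0 := by
    apply zpow_ne hx k3
    have u1 : |(A₂ - A₁) * (B₁ - B₃)| ≤ M / 2 * (M / 2) := by
      rw [abs_mul]
      apply mul_le_mul _ _ (abs_nonneg _) (by positivity)
      · rw [abs_le]; omega
      · rw [abs_le]; omega
    have u2 : |(A₃ - A₁) * (B₁ - B₂)| ≤ M / 2 * (M / 2) := by
      rw [abs_mul]
      apply mul_le_mul _ _ (abs_nonneg _) (by positivity)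
      · rw [abs_le]; omega
      · rw [abs_le]; omega
    have u3 : M / 2 * (M / 2) * 4 ≤ M * M := by
      have : M / 2 * 2 ≤ M := Int.ediv_mul_le _ (by norm_num)
      have h0 : 0 ≤ M / 2 := by positivity
      nlinarith
    have u4 : 0 < M * M := by positivity
    refine lt_of_le_of_lt (abs_sub _ _) ?_
    linarith
  have k5 : (A₂ - A₁) * (B₁ - B₃) = (A₃ - A₁) * (B₁ - B₂) := by linarith
  obtain ⟨a, rfl⟩ : ∃ a, a₂ = a₁ + a := ⟨a₂ - a₁, by omega⟩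
  obtain ⟨b, rfl⟩ : ∃ b, a₃ = a₁ + b := ⟨a₃ - a₁, by omega⟩
  have hab : a < b := by omega
  have ha0 : 1 ≤ a := by omega
  rcases lt_or_gt_of_ne hb12 with hb | hb
  · -- `b₁ < b₂`
    have hb' : b₁ < b₃ := by
      by_contra h
      have h' : b₃ < b₁ := by omega
      have v1 : B₃ < B₁ := pow_lt_pow_right₀ (by norm_num) h'
      have v2 : B₁ < B₂ := pow_lt_pow_right₀ (by norm_num) hb
      have v3 : 0 < (A₂ - A₁) * (B₁ - B₃) := mul_pos (by linarith) (by linarith)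
      have v4 : 0 < (A₃ - A₁) * (B₂ - B₁) := mul_pos (by linarith) (by linarith)
      nlinarith
    obtain ⟨c', rfl⟩ : ∃ c', b₂ = b₁ + c' := ⟨b₂ - b₁, by omega⟩
    obtain ⟨d, rfl⟩ : ∃ d, b₃ = b₁ + d := ⟨b₃ - b₁, by omega⟩
    have k6 : ((2 : ℤ) ^ a - 1) * (2 ^ d - 1) = (2 ^ b - 1) * (2 ^ c' - 1) := by
      have f1 : A₂ = A₁ * 2 ^ a := pow_add _ _ _
      have f2 : A₃ = A₁ * 2 ^ b := pow_add _ _ _
      have f3 : B₂ = B₁ * 2 ^ c' := pow_add _ _ _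
      have f4 : B₃ = B₁ * 2 ^ d := pow_add _ _ _
      rw [f1, f2, f3, f4] at k5
      have f5 : (A₁ * B₁) * (((2 : ℤ) ^ a - 1) * (2 ^ d - 1)) =
          (A₁ * B₁) * ((2 ^ b - 1) * (2 ^ c' - 1)) := by
        linear_combination (-1 : ℤ) * k5
      exact mul_left_cancel₀ (mul_pos qa₁ qb₁).ne' f5
    have hc0 : 1 ≤ c' := by omega
    have hd0 : 1 ≤ d := by omega
    have hcd : c' < d := by
      by_contra h
      have w1 : (2 : ℤ) ^ d ≤ 2 ^ c' := pow_le_pow_right₀ (by norm_num) (by omega)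
      have w2 : (2 : ℤ) ^ a < 2 ^ b := pow_lt_pow_right₀ (by norm_num) hab
      have w3 : (2 : ℤ) ^ 1 ≤ 2 ^ d := pow_le_pow_right₀ (by norm_num) hd0
      have w4 : (2 : ℤ) ^ 1 ≤ 2 ^ a := pow_le_pow_right₀ (by norm_num) ha0
      nlinarith
    rcases lt_trichotomy a c' with h | h | h
    · exact case1 hab hcd h k6
    · subst h
      have g1 : c ^ (2 ^ a) = c := by
        conv_lhs => rw [← e₁]
        rw [mul_pow, ← pow_mul, ← pow_mul, ← pow_add, ← pow_add]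
        exact e₂
      have g2 : c ^ (2 ^ a - 1) = 1 := by
        have g3 : c ^ (2 ^ a - 1) * c = c := by
          rw [← pow_succ, Nat.sub_add_cancel (Nat.one_le_two_pow)]
          exact g1
        exact mul_eq_right.1 g3
      have g4 : 2 ≤ 2 ^ a := by
        calc 2 = 2 ^ 1 := rfl
          _ ≤ 2 ^ a := Nat.pow_le_pow_right (by norm_num) ha0
      have g5 : 2 ^ a ≤ 2 ^ (2 * L) := Nat.pow_le_pow_right (by norm_num) (by omega)
      exact hc (2 ^ a - 1) (by omega) (by omega) g2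
    · exact case1 (a := c') (b := d) (c := a) (d := b) hcd hab h (by linarith)
  · -- `b₂ < b₁`
    have hb' : b₃ < b₁ := by
      by_contra h
      have h' : b₁ < b₃ := by omega
      have v1 : B₁ < B₃ := pow_lt_pow_right₀ (by norm_num) h'
      have v2 : B₂ < B₁ := pow_lt_pow_right₀ (by norm_num) hb
      have v3 : 0 < (A₂ - A₁) * (B₃ - B₁) := mul_pos (by linarith) (by linarith)
      have v4 : 0 < (A₃ - A₁) * (B₁ - B₂) := mul_pos (by linarith) (by linarith)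
      nlinarith
    obtain ⟨c', hc'⟩ : ∃ c', b₁ = b₂ + c' := ⟨b₁ - b₂, by omega⟩
    obtain ⟨d, hd⟩ : ∃ d, b₁ = b₃ + d := ⟨b₁ - b₃, by omega⟩
    have f1 : A₂ = A₁ * 2 ^ a := pow_add _ _ _
    have f2 : A₃ = A₁ * 2 ^ b := pow_add _ _ _
    have f3 : B₁ = B₂ * 2 ^ c' := by
      have : B₁ = 2 ^ (b₂ + c') := by rw [← hc']
      rw [this, pow_add]
    have f4 : B₁ = B₃ * 2 ^ d := by
      have : B₁ = 2 ^ (b₃ + d) := by rw [← hd]
      rw [this, pow_add]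
    have k6 : ((2 : ℤ) ^ a - 1) * (B₃ * (2 ^ d - 1)) = (2 ^ b - 1) * (B₂ * (2 ^ c' - 1)) := by
      have f5 : A₁ * (((2 : ℤ) ^ a - 1) * (B₃ * (2 ^ d - 1))) =
          A₁ * ((2 ^ b - 1) * (B₂ * (2 ^ c' - 1))) := by
        have f6 : B₁ - B₃ = B₃ * (2 ^ d - 1) := by rw [f4]; ring
        have f7 : B₁ - B₂ = B₂ * (2 ^ c' - 1) := by rw [f3]; ring
        rw [f1, f2, f6, f7] at k5
        linear_combination k5
      exact mul_left_cancel₀ qa₁.ne' f5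
    have odd1 : ∀ m : ℕ, 1 ≤ m → ¬ (2 : ℤ) ∣ 2 ^ m - 1 := by
      intro m hm h
      have h1 : (2 : ℤ) ∣ 2 ^ m := dvd_pow_self 2 (by omega)
      have h2 : (2 : ℤ) ∣ 1 := by
        have := dvd_sub h1 h
        simpa using this
      omega
    have val : ∀ (u v i j m l : ℕ), 1 ≤ i → 1 ≤ j → 1 ≤ m → 1 ≤ l → u < v →
        ((2 : ℤ) ^ i - 1) * (2 ^ v * (2 ^ j - 1)) = (2 ^ m - 1) * (2 ^ u * (2 ^ l - 1)) →
        False := by
      intro u v i j m l hi hj hm hl huv h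
      obtain ⟨w, rfl⟩ : ∃ w, v = u + (w + 1) := ⟨v - u - 1, by omega⟩
      have h1 : (2 : ℤ) ^ u * (((2 : ℤ) ^ i - 1) * (2 ^ (w + 1) * (2 ^ j - 1))) =
          2 ^ u * ((2 ^ m - 1) * (2 ^ l - 1)) := by
        rw [pow_add] at h
        linear_combination h
      have h2 := mul_left_cancel₀ (pow_pos (by norm_num : (0 : ℤ) < 2) u).ne' h1
      have h3 : (2 : ℤ) ∣ (2 ^ m - 1) * (2 ^ l - 1) := by
        rw [← h2]
        exact ⟨(2 ^ i - 1) * (2 ^ w * (2 ^ j - 1)), by rw [pow_succ]; ring⟩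
      rcases Int.prime_two.dvd_or_dvd h3 with h4 | h4
      · exact odd1 m hm h4
      · exact odd1 l hl h4
    rcases lt_or_gt_of_ne hb23 with h | h
    · exact val b₂ b₃ a d b c' ha0 (by omega) (by omega) (by omega) h k6
    · exact val b₃ b₂ b c' a d (by omega) (by omega) (by omega) (by omega) h k6.symm

/-- three solutions with different first exponents -/
lemma three' {G : Type} [CommGroup G] {x y c : G} {K L : ℕ}
    (hx : ∀ j, 1 ≤ j → j < K → x ^ j ≠ 1) (hy : ∀ j, 1 ≤ j → j < K → y ^ j ≠ 1)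
    (hc : ∀ j, 1 ≤ j → j < K → c ^ j ≠ 1) (hK : 2 ^ (2 * L) ≤ K) (p q r : ℕ × ℕ)
    (hp : p.1 < L ∧ p.2 < L ∧ x ^ (2 ^ p.1) * y ^ (2 ^ p.2) = c)
    (hq : q.1 < L ∧ q.2 < L ∧ x ^ (2 ^ q.1) * y ^ (2 ^ q.2) = c)
    (hr : r.1 < L ∧ r.2 < L ∧ x ^ (2 ^ r.1) * y ^ (2 ^ r.2) = c)
    (h1 : p.1 < q.1) (h2 : q.1 < r.1) : False := by
  have hne : ∀ u v : ℕ × ℕ, (u.1 < L ∧ u.2 < L ∧ x ^ (2 ^ u.1) * y ^ (2 ^ u.2) = c) →
      (v.1 < L ∧ v.2 < L ∧ x ^ (2 ^ v.1) * y ^ (2 ^ v.2) = c) → u.1 < v.1 → u.2 ≠ v.2 := by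
    rintro u v ⟨u1, u2, u3⟩ ⟨v1, v2, v3⟩ huv he
    rw [he] at u3
    have h3 := mul_right_cancel (u3.trans v3.symm)
    have := inj hx hK u1 v1 h3
    omega
  exact three hx hc hK hp.1 hq.1 hr.1 hp.2.1 hq.2.1 hr.2.1 h1 h2 (hne p q hp hq h1)
    (hne p r hp hr (h1.trans h2)) (hne q r hq hr h2) hp.2.2 hq.2.2 hr.2.2

end ARI_

open ARI_

theorem p_ARITH : T_ARITH := by
  intro G _ x y c K L hx hy hc hK s hs
  by_contra hcard
  push Not at hcard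
  obtain ⟨p, q, r, hp, hq, hr, hpq, hpr, hqr⟩ := Finset.two_lt_card_iff.1 hcard
  have hfst : ∀ u v : ℕ × ℕ, u ∈ s → v ∈ s → u ≠ v → u.1 ≠ v.1 := by
    intro u v hu hv huv he
    obtain ⟨u1, u2, u3⟩ := hs u hu
    obtain ⟨v1, v2, v3⟩ := hs v hv
    rw [he] at u3
    have h3 := mul_left_cancel (u3.trans v3.symm)
    exact huv (Prod.ext he (inj hy hK u2 v2 h3))
  have n1 := hfst p q hp hq hpq
  have n2 := hfst p r hp hr hpr
  have n3 := hfst q r hq hr hqr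
  have T := three' hx hy hc hK
  rcases lt_or_gt_of_ne n1 with h1 | h1 <;> rcases lt_or_gt_of_ne n2 with h2 | h2 <;>
    rcases lt_or_gt_of_ne n3 with h3 | h3
  · exact T p q r (hs p hp) (hs q hq) (hs r hr) h1 h3
  · exact T p r q (hs p hp) (hs r hr) (hs q hq) h2 h3
  · omega
  · exact T r p q (hs r hr) (hs p hp) (hs q hq) h2 h1
  · exact T q p r (hs q hq) (hs p hp) (hs r hr) h1 h2
  · omega
  · exact T q r p (hs q hq) (hs r hr) (hs p hp) h3 h2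
  · exact T r q p (hs r hr) (hs q hq) (hs p hp) h3 h1

theorem p_COUNT : T_COUNT := by
  intro G _ _ E c K L hsq hinj hE hc hK
  have hmem : ∀ a : ℕ, ∀ x ∈ E, x ^ (2 ^ a) ∈ E := by
    intro a
    induction a with
    | zero => intro x hx; simpa using hx
    | succ a ih =>
      intro x hx
      rw [pow_succ 2 a, pow_mul]
      exact hsq _ (ih x hx)
  have hin : ∀ a : ℕ, ∀ x ∈ E, ∀ y ∈ E, x ^ (2 ^ a) = y ^ (2 ^ a) → x = y := by
    intro a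
    induction a with
    | zero => intro x _ y _ h; simpa using h
    | succ a ih =>
      intro x hx y hy h
      rw [pow_succ 2 a, pow_mul, pow_mul] at h
      exact ih x hx y hy (hinj _ (hmem a x hx) _ (hmem a y hy) h)
  have hsurj : ∀ a : ℕ, ∀ z ∈ E, ∃ x ∈ E, x ^ (2 ^ a) = z := by
    intro a z hz
    have h1 : Set.SurjOn (fun x : G => x ^ (2 ^ a)) (E : Set G) (E : Set G) :=
      Finset.surjOn_of_injOn_of_card_le _ (fun x hx => hmem a x hx)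
        (fun x hx y hy h => hin a x hx y hy h) le_rfl
    obtain ⟨x, hx, h⟩ := h1 hz
    exact ⟨x, hx, h⟩
  set N := ((E ×ˢ E).filter fun p => p.1 * p.2 = c).card with hN
  have hle : ∀ a b : ℕ, N ≤ ((E ×ˢ E).filter fun p =>
      p.1 ^ (2 ^ a) * p.2 ^ (2 ^ b) = c).card := by
    intro a b
    apply Finset.card_le_card_of_surjOn (fun p : G × G => (p.1 ^ (2 ^ a), p.2 ^ (2 ^ b)))
    rintro ⟨u, v⟩ huv
    simp only [Finset.coe_filter, Finset.mem_product, Set.mem_ofPred_eq] at huv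
    obtain ⟨⟨hu, hv⟩, huv'⟩ := huv
    obtain ⟨x, hx, rfl⟩ := hsurj a u hu
    obtain ⟨y, hy, rfl⟩ := hsurj b v hv
    refine ⟨(x, y), ?_, rfl⟩
    simp only [Finset.coe_filter, Finset.mem_product, Set.mem_ofPred_eq]
    exact ⟨⟨hx, hy⟩, huv'⟩
  calc L ^ 2 * N = ∑ q ∈ Finset.range L ×ˢ Finset.range L, N := by
        rw [Finset.sum_const, Finset.card_product, Finset.card_range, smul_eq_mul, sq]
    _ ≤ ∑ q ∈ Finset.range L ×ˢ Finset.range L, ((E ×ˢ E).filter fun p =>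
          p.1 ^ (2 ^ q.1) * p.2 ^ (2 ^ q.2) = c).card := Finset.sum_le_sum fun q _ => hle q.1 q.2
    _ = ∑ q ∈ Finset.range L ×ˢ Finset.range L, ∑ p ∈ E ×ˢ E,
          (if p.1 ^ (2 ^ q.1) * p.2 ^ (2 ^ q.2) = c then 1 else 0) := by
        refine Finset.sum_congr rfl fun q _ => ?_
        rw [Finset.card_filter]
    _ = ∑ p ∈ E ×ˢ E, ∑ q ∈ Finset.range L ×ˢ Finset.range L,
          (if p.1 ^ (2 ^ q.1) * p.2 ^ (2 ^ q.2) = c then 1 else 0) := Finset.sum_comm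
    _ ≤ ∑ p ∈ E ×ˢ E, 2 := by
        refine Finset.sum_le_sum fun p hp => ?_
        obtain ⟨h1, h2⟩ := Finset.mem_product.1 hp
        rw [← Finset.card_filter]
        refine p_ARITH G p.1 p.2 c K L (hE _ h1) (hE _ h2) hc hK _ fun q hq => ?_
        obtain ⟨h3, h4⟩ := Finset.mem_filter.1 hq
        obtain ⟨h5, h6⟩ := Finset.mem_product.1 h3
        exact ⟨Finset.mem_range.1 h5, Finset.mem_range.1 h6, h4⟩
    _ = 2 * E.card ^ 2 := by
        rw [Finset.sum_const, Finset.card_product, smul_eq_mul]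
        ring

end Pool.Agent.SYA
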