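import Mathlib

set_option autoImplicit false

/-!
# Quadratic functions on `F_2^n` with an automorphism with long orbits: definitions
-/

namespace Pool.Agent.SYA

/-- the vector space `F_2^n` -/
abbrev V (n : ℕ) : Type := Fin n → ZMod 2

/-- the polarisation of `F` -/
def pol {n : ℕ} (F : V n → V n) (x y : V n) : V n := F (x + y) + F x + F y + F 0

/-- `F` is quadratic: its polarisation is additive in the first variable (it is symmetric) -/
def IsQuad {n : ℕ} (F : V n → V n) : Prop := ∀ x y z, pol F (x + y) z = pol F x z + pol F y z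

/-- `F` and `G` are CCZ-equivalent: an affine permutation of `F_2^n × F_2^n` maps the graph of `F`
onto the graph of `G` -/
def CCZ {n : ℕ} (F G : V n → V n) : Prop :=
  ∃ A : (V n × V n) ≃ᵃ[ZMod 2] (V n × V n),
    A '' {p : V n × V n | p.2 = F p.1} = {p : V n × V n | p.2 = G p.1}

/-- all orbits of `g` on the nonzero vectors have length at least `2^(n/k)`: no power `g^j` with
`1 ≤ j < 2^(n/k)` fixes a nonzero vector -/
def LongOrb {n : ℕ} (k : ℕ) (g : V n ≃ₗ[ZMod 2] V n) : Prop :=
  ∀ j : ℕ, 1 ≤ j → j ^ k < 2 ^ n → ∀ x : V n, x ≠ 0 → (g ^ j) x ≠ x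

/-- `(g, h)` is an automorphism of `F`: the function `x ↦ F(g x) + h(F x)` is affine -/
def IsAut {n : ℕ} (F : V n → V n) (g h : V n ≃ₗ[ZMod 2] V n) : Prop :=
  ∃ (a : V n →ₗ[ZMod 2] V n) (b : V n), ∀ x, F (g x) + h (F x) = a x + b

/-- `F` has an automorphism with long orbits on both sides -/
def LongSym {n : ℕ} (k : ℕ) (F : V n → V n) : Prop :=
  ∃ g h : V n ≃ₗ[ZMod 2] V n, LongOrb k g ∧ LongOrb k h ∧ IsAut F g h

end Pool.Agent.SYA
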