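import Mathlib
import Pool.Agent.SYA.Defs

set_option autoImplicit false

/-!
# Quadratic functions on `F_2^n` with an automorphism with long orbits: targets
-/

namespace Pool.Agent.SYA

open Module
open scoped BigOperators

/-- the algebraic closure of the field with two elements -/
abbrev Om : Type := AlgebraicClosure (ZMod 2)

/-- extension of scalars of a linear map, in coordinates -/
noncomputable def ext {n : ℕ} (g : V n →ₗ[ZMod 2] V n) : (Fin n → Om) →ₗ[Om] (Fin n → Om) :=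
  Matrix.toLin' ((LinearMap.toMatrix' g).map (algebraMap (ZMod 2) Om))

/-- CONJ: few conjugacy classes. -/
def T_CONJ : Prop := ∀ k n : ℕ, 1 ≤ k → 1 ≤ n →
  ∃ (D : Type) (_ : Fintype D) (inv : (V n ≃ₗ[ZMod 2] V n) → D),
    Fintype.card D ≤ (k + 1) * 2 ^ ((n + 1) * k) ∧
    ∀ g g' : V n ≃ₗ[ZMod 2] V n, LongOrb k g → LongOrb k g' → (∃ N, Odd N ∧ g ^ N = 1) →
      (∃ N, Odd N ∧ g' ^ N = 1) → inv g = inv g' →
      ∃ P : V n ≃ₗ[ZMod 2] V n, ∀ x, P (g x) = g' (P x)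

/-- GEN: few generators. -/
def T_GEN : Prop := ∀ (k n : ℕ), 1 ≤ k → 1 ≤ n → ∀ g : V n ≃ₗ[ZMod 2] V n, LongOrb k g →
  (∃ N, Odd N ∧ g ^ N = 1) →
  ∃ v : Fin k → V n, Submodule.span (ZMod 2) {y | ∃ (j : ℕ) (a : Fin k), y = (g ^ j) (v a)} = ⊤

/-- ARITH: at most two solutions in a small box. -/
def T_ARITH : Prop := ∀ (G : Type) [CommGroup G] (x y c : G) (K L : ℕ),
  (∀ j, 1 ≤ j → j < K → x ^ j ≠ 1) → (∀ j, 1 ≤ j → j < K → y ^ j ≠ 1) →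
  (∀ j, 1 ≤ j → j < K → c ^ j ≠ 1) → 2 ^ (2 * L) ≤ K →
  ∀ s : Finset (ℕ × ℕ), (∀ p ∈ s, p.1 < L ∧ p.2 < L ∧ x ^ (2 ^ p.1) * y ^ (2 ^ p.2) = c) →
    s.card ≤ 2

/-- COUNT: few products equal to `c`. -/
def T_COUNT : Prop := ∀ (G : Type) [CommGroup G] [DecidableEq G] (E : Finset G) (c : G) (K L : ℕ),
  (∀ x ∈ E, x ^ 2 ∈ E) → (∀ x ∈ E, ∀ y ∈ E, x ^ 2 = y ^ 2 → x = y) →
  (∀ x ∈ E, ∀ j, 1 ≤ j → j < K → x ^ j ≠ 1) → (∀ j, 1 ≤ j → j < K → c ^ j ≠ 1) →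
  2 ^ (2 * L) ≤ K →
  L ^ 2 * ((E ×ˢ E).filter fun p => p.1 * p.2 = c).card ≤ 2 * E.card ^ 2

/-- EIG1: a basis of eigenvectors. -/
def T_EIG1 : Prop := ∀ (n : ℕ) (g : V n ≃ₗ[ZMod 2] V n), (∃ N, Odd N ∧ g ^ N = 1) →
  ∃ (b : Basis (Fin n) Om (Fin n → Om)) (l : Fin n → Om),
    ∀ i, ext (g : V n →ₗ[ZMod 2] V n) (b i) = l i • b i

/-- EIG2: the order of the eigenvalues. -/
def T_EIG2 : Prop := ∀ (n k : ℕ) (g : V n ≃ₗ[ZMod 2] V n)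
  (b : Basis (Fin n) Om (Fin n → Om)) (l : Fin n → Om),
  (∀ i, ext (g : V n →ₗ[ZMod 2] V n) (b i) = l i • b i) → LongOrb k g →
  ∀ i, l i ≠ 0 ∧ ∀ j : ℕ, 1 ≤ j → j ^ k < 2 ^ n → l i ^ j ≠ 1

/-- EIG3: the multiplicity of the eigenvalues. -/
def T_EIG3 : Prop := ∀ (n k : ℕ) (g : V n ≃ₗ[ZMod 2] V n)
  (b : Basis (Fin n) Om (Fin n → Om)) (l : Fin n → Om),
  (∀ i, ext (g : V n →ₗ[ZMod 2] V n) (b i) = l i • b i) →
  (∃ v : Fin k → V n,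
    Submodule.span (ZMod 2) {y | ∃ (j : ℕ) (a : Fin k), y = (g ^ j) (v a)} = ⊤) →
  ∀ z : Om, Nat.card {i // l i = z} ≤ k

/-- EIG4: the set of eigenvalues is closed under squaring. -/
def T_EIG4 : Prop := ∀ (n : ℕ) (g : V n ≃ₗ[ZMod 2] V n)
  (b : Basis (Fin n) Om (Fin n → Om)) (l : Fin n → Om),
  (∀ i, ext (g : V n →ₗ[ZMod 2] V n) (b i) = l i • b i) → ∀ i, ∃ j, l j = l i ^ 2

/-- DIM: the number of equivariant bilinear maps. -/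
def T_DIM : Prop := ∀ (n : ℕ) (g h : V n ≃ₗ[ZMod 2] V n)
  (b c : Basis (Fin n) Om (Fin n → Om)) (l m : Fin n → Om),
  (∀ i, ext (g : V n →ₗ[ZMod 2] V n) (b i) = l i • b i) →
  (∀ i, ext (h : V n →ₗ[ZMod 2] V n) (c i) = m i • c i) →
  Nat.card {B : V n →ₗ[ZMod 2] V n →ₗ[ZMod 2] V n // ∀ x y, B (g x) (g y) = h (B x y)} ≤
    2 ^ Nat.card {p : Fin n × Fin n × Fin n // l p.1 * l p.2.1 = m p.2.2}

/-- MAIN: polynomially many classes. -/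
def T_MAIN : Prop := ∀ k n : ℕ, 1 ≤ k → 1 ≤ n → ∀ S : Finset (V n → V n),
  (∀ F ∈ S, IsQuad F ∧ LongSym k F) → (∀ F ∈ S, ∀ G ∈ S, CCZ F G → F = G) →
  S.card ≤ 2 ^ (40 * k ^ 4 * n)

end Pool.Agent.SYA
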