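import Mathlib
import Pool.Agent.SYA.Targets

set_option autoImplicit false

/-!
# Few conjugacy classes, few generators
-/

namespace Pool.Agent.SYA

open Module Polynomial
open scoped BigOperators DirectSum

namespace CONJ_

/-- the field with two elements -/
abbrev K : Type := ZMod 2

/-- The summands. -/
abbrev Nq (q : K[X]) : Type := K[X] ⧸ (K[X] ∙ q)

lemma struct {n : ℕ} (g : V n →ₗ[K] V n) :
    ∃ (ι : Type) (_ : Fintype ι) (p : ι → K[X]) (e : ι → ℕ), (∀ i, Irreducible (p i)) ∧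
      (∀ i, e i ≠ 0) ∧ Nonempty (AEval' g ≃ₗ[K[X]] (∀ i, Nq (p i ^ e i))) := by
  classical
  obtain ⟨ι, hι, p, hp, e, ⟨l⟩⟩ := Module.equiv_directSum_of_isTorsion
    (AEval.isTorsion_of_finiteDimensional K (V n) g)
  refine ⟨{i // e i ≠ 0}, inferInstance, fun i => p i.1, fun i => e i.1, fun i => hp _,
    fun i => i.2, ⟨?_⟩⟩
  refine l ≪≫ₗ DirectSum.linearEquivFunOnFintype K[X] ι (fun i => Nq (p i ^ e i)) ≪≫ₗ ?_
  refine LinearEquiv.ofBijective
    (LinearMap.pi fun i : {i // e i ≠ 0} => LinearMap.proj i.1) ⟨?_, ?_⟩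
  · intro x y hxy
    ext i
    by_cases hi : e i = 0
    · have : Subsingleton (Nq (p i ^ e i)) := by
        rw [Submodule.Quotient.subsingleton_iff, hi, pow_zero]
        exact Ideal.span_singleton_one
      exact Subsingleton.elim _ _
    · exact congrFun hxy ⟨i, hi⟩
  · intro y
    refine ⟨fun i => if h : e i ≠ 0 then y ⟨i, h⟩ else 0, ?_⟩
    ext i
    simp [i.2]

lemma lin_pow {n : ℕ} (g : V n ≃ₗ[K] V n) (j : ℕ) (x : V n) :
    (g ^ j) x = ((g : V n →ₗ[K] V n) ^ j) x := by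
  induction j generalizing x with
  | zero => simp
  | succ j ih =>
    rw [pow_succ, pow_succ, LinearEquiv.mul_apply, ih, Module.End.mul_apply]
    rfl

lemma card_V (n : ℕ) : Nat.card (V n) = 2 ^ n := by
  rw [Nat.card_eq_fintype_card, Fintype.card_fun, ZMod.card, Fintype.card_fin]

lemma quot_pow (p : K[X]) (hp : Irreducible p) (hF : Finite (K[X] ⧸ Ideal.span {p})) :
    1 < Nat.card (K[X] ⧸ Ideal.span {p}) ∧
      (¬ p ∣ X → p ∣ X ^ (Nat.card (K[X] ⧸ Ideal.span {p}) - 1) - 1) := by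
  have hmax : (Ideal.span {p}).IsMaximal := PrincipalIdealRing.isMaximal_of_irreducible hp
  have hdom : IsDomain (K[X] ⧸ Ideal.span {p}) := inferInstance
  have hnt : Nontrivial (K[X] ⧸ Ideal.span {p}) := inferInstance
  refine ⟨Finite.one_lt_card, fun hX => ?_⟩
  let := Fintype.ofFinite (K[X] ⧸ Ideal.span {p})
  have hx0 : (Ideal.Quotient.mk (Ideal.span {p}) X) ≠ 0 := by
    intro h
    rw [Ideal.Quotient.eq_zero_iff_mem, Ideal.mem_span_singleton] at h
    exact hX h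
  have hxp : (Ideal.Quotient.mk (Ideal.span {p}) X) ^
      (Nat.card (K[X] ⧸ Ideal.span {p}) - 1) = 1 := by
    classical
    have hu : IsUnit (Ideal.Quotient.mk (Ideal.span {p}) X) := by
      have hfld : IsField (K[X] ⧸ Ideal.span {p}) := Finite.isField_of_domain _
      obtain ⟨y, hy⟩ := hfld.mul_inv_cancel hx0
      exact IsUnit.of_mul_eq_one y hy
    obtain ⟨u, hu⟩ := hu
    have h1 : Nat.card (K[X] ⧸ Ideal.span {p})ˣ = Nat.card (K[X] ⧸ Ideal.span {p}) - 1 := by
      have hfld : IsField (K[X] ⧸ Ideal.span {p}) := Finite.isField_of_domain _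
      let fld := hfld.toField
      rw [Nat.card_eq_fintype_card, Nat.card_eq_fintype_card]
      exact Fintype.card_units (K[X] ⧸ Ideal.span {p})
    rw [← hu, ← h1, ← Units.val_pow_eq_pow_val, pow_card_eq_one', Units.val_one]
  rw [← Ideal.mem_span_singleton, ← Ideal.Quotient.eq_zero_iff_mem, map_sub, map_pow, map_one,
    hxp, sub_self]

lemma bound {k n : ℕ} (hk : 1 ≤ k) (g : V n ≃ₗ[K] V n) (hL : LongOrb k g) {ι : Type}
    [Fintype ι] (p : ι → K[X]) (e : ι → ℕ) (hp : ∀ i, Irreducible (p i)) (he : ∀ i, e i ≠ 0)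
    (L : AEval' (g : V n →ₗ[K] V n) ≃ₗ[K[X]] (∀ i, Nq (p i ^ e i))) (i : ι) :
    2 ^ n < (Nat.card (Nq (p i ^ e i))) ^ k := by
  classical
  obtain ⟨d, hd⟩ : ∃ d, e i = d + 1 := ⟨e i - 1, by have := he i; omega⟩
  have hfin : ∀ j, Finite (Nq (p j ^ e j)) := by
    intro j
    have hs : Function.Surjective fun v : V n => L (AEval'.of _ v) j := by
      intro y
      refine ⟨(AEval'.of _).symm (L.symm (Pi.single j y)), ?_⟩
      simp
    exact Finite.of_surjective _ hs
  have hle : (K[X] ∙ (p i ^ e i)) ≤ Ideal.span {p i} := by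
    rw [Submodule.span_singleton_le_iff_mem]
    exact Ideal.mem_span_singleton.2 (dvd_pow_self _ (he i))
  have hsur := Ideal.Quotient.factor_surjective hle
  have hF : Finite (K[X] ⧸ Ideal.span {p i}) := by
    have := hfin i
    exact Finite.of_surjective _ hsur
  have hcard : Nat.card (K[X] ⧸ Ideal.span {p i}) ≤ Nat.card (Nq (p i ^ e i)) := by
    have := hfin i
    exact Nat.card_le_card_of_surjective _ hsur
  obtain ⟨hQ2, hdv'⟩ := quot_pow (p i) (hp i) hF
  set Q := Nat.card (K[X] ⧸ Ideal.span {p i}) with hQ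
  -- the vector
  let v0 : Nq (p i ^ e i) := Submodule.Quotient.mk (p i ^ d)
  have hp0 : p i ≠ 0 := (hp i).ne_zero
  have hv0 : v0 ≠ 0 := by
    intro h
    rw [Submodule.Quotient.mk_eq_zero] at h
    have h1 : p i ^ e i ∣ p i ^ d := Ideal.mem_span_singleton.1 h
    rw [hd] at h1
    have := (pow_dvd_pow_iff hp0 (hp i).not_isUnit).1 h1
    omega
  have hkill : ∀ r : K[X], p i ∣ r → r • v0 = 0 := by
    rintro _ ⟨r, rfl⟩
    change Submodule.Quotient.mk ((p i * r) • (p i ^ d)) = _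
    rw [Submodule.Quotient.mk_eq_zero]
    refine Ideal.mem_span_singleton.2 ?_
    rw [hd, smul_eq_mul, pow_succ]
    exact ⟨r, by ring⟩
  let w : V n := (AEval'.of _).symm (L.symm (Pi.single i v0))
  have hw : AEval'.of (g : V n →ₗ[K] V n) w = L.symm (Pi.single i v0) := by simp [w]
  have hw0 : w ≠ 0 := by
    intro h
    rw [h, map_zero] at hw
    have h1 := congrArg L hw
    rw [map_zero, LinearEquiv.apply_symm_apply] at h1
    have h2 := congrFun h1 i
    rw [Pi.single_eq_same] at h2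
    exact hv0 h2.symm
  have hsm : ∀ r : K[X], r • AEval'.of (g : V n →ₗ[K] V n) w = L.symm (Pi.single i (r • v0)) := by
    intro r
    rw [hw, ← map_smul]
    congr 1
    exact ((LinearMap.single K[X] (fun i => Nq (p i ^ e i)) i).map_smul r v0).symm
  have hX : ¬ p i ∣ X := by
    intro h
    have h1 := hsm X
    rw [hkill X h, Pi.single_zero, map_zero, AEval'.X_smul_of] at h1
    have h2 : (g : V n →ₗ[K] V n) w = 0 := (AEval'.of _).map_eq_zero_iff.1 h1
    exact hw0 (g.map_eq_zero_iff.1 h2)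
  have hdv : p i ∣ X ^ (Q - 1) - 1 := hdv' hX
  have hfix : (g ^ (Q - 1)) w = w := by
    have h1 := hsm (X ^ (Q - 1) - 1)
    rw [hkill _ hdv, Pi.single_zero, map_zero, sub_smul, one_smul, AEval'.X_pow_smul_of,
      ← map_sub] at h1
    have h2 := (AEval'.of _).map_eq_zero_iff.1 h1
    rw [lin_pow]
    exact sub_eq_zero.1 h2
  have hno : ¬ (Q - 1) ^ k < 2 ^ n := fun h => hL (Q - 1) (by omega) h w hw0 hfix
  calc 2 ^ n ≤ (Q - 1) ^ k := not_lt.1 hno
    _ < Q ^ k := Nat.pow_lt_pow_left (by omega) (by omega)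
    _ ≤ _ := Nat.pow_le_pow_left hcard k

lemma main_struct {k n : ℕ} (hk : 1 ≤ k) (hn : 1 ≤ n) (g : V n ≃ₗ[K] V n)
    (hL : LongOrb k g) :
    ∃ (m : ℕ) (q : Fin m → K[X]), m ≤ k ∧ (∀ i, (q i).natDegree ≤ n) ∧
      Nonempty (AEval' (g : V n →ₗ[K] V n) ≃ₗ[K[X]] (∀ i, Nq (q i))) := by
  classical
  obtain ⟨ι, hι, p, e, hp, he, ⟨L⟩⟩ := struct (g : V n →ₗ[K] V n)
  have hb := bound hk g hL p e hp he L
  have hcard : ∏ i, Nat.card (Nq (p i ^ e i)) = 2 ^ n := by
    rw [← Nat.card_pi, ← card_V]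
    exact (Nat.card_congr ((AEval'.of (g : V n →ₗ[K] V n)).toEquiv.trans L.toEquiv)).symm
  have hm : Fintype.card ι ≤ k := by
    have h1 : (2 ^ n) ^ Fintype.card ι ≤ (2 ^ n) ^ k := by
      calc (2 ^ n) ^ Fintype.card ι = ∏ _i : ι, 2 ^ n := by simp
        _ ≤ ∏ i, (Nat.card (Nq (p i ^ e i))) ^ k :=
          Finset.prod_le_prod' fun i _ => (hb i).le
        _ = _ := by rw [Finset.prod_pow, hcard]
    exact (Nat.pow_le_pow_iff_right (Nat.one_lt_two_pow (by omega))).1 h1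
  have hdeg : ∀ i, (p i ^ e i).natDegree ≤ n := by
    intro i
    have h1 : finrank K (Nq (p i ^ e i)) = (p i ^ e i).natDegree :=
      finrank_quotient_span_eq_natDegree
    rw [← h1]
    let f : V n →ₗ[K] Nq (p i ^ e i) :=
      (((LinearMap.proj i : (∀ i, Nq (p i ^ e i)) →ₗ[K[X]] Nq (p i ^ e i)) ∘ₗ
        (L : AEval' (g : V n →ₗ[K] V n) →ₗ[K[X]] _)).restrictScalars K) ∘ₗ
        (AEval'.of (g : V n →ₗ[K] V n) : V n →ₗ[K] AEval' (g : V n →ₗ[K] V n))
    have hf : Function.Surjective f := by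
      intro y
      refine ⟨(AEval'.of _).symm (L.symm (Pi.single i y)), ?_⟩
      simp [f]
    have h2 := LinearMap.finrank_le_finrank_of_surjective hf
    simpa using h2
  let ε := Fintype.equivFin ι
  refine ⟨Fintype.card ι, fun j => p (ε.symm j) ^ e (ε.symm j), hm, fun j => hdeg _,
    ⟨L ≪≫ₗ (LinearEquiv.piCongrLeft' K[X] (fun i => Nq (p i ^ e i)) ε)⟩⟩

/-- The shape of a long map. -/
structure Shape (k n : ℕ) (g : V n ≃ₗ[K] V n) where
  m : ℕ
  q : Fin m → K[X]
  hm : m ≤ k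
  hq : ∀ i, (q i).natDegree ≤ n
  L : AEval' (g : V n →ₗ[K] V n) ≃ₗ[K[X]] (∀ i, Nq (q i))

lemma shape {k n : ℕ} (hk : 1 ≤ k) (hn : 1 ≤ n) (g : V n ≃ₗ[K] V n) (hL : LongOrb k g) :
    Nonempty (Shape k n g) := by
  obtain ⟨m, q, h1, h2, ⟨L⟩⟩ := main_struct hk hn g hL
  exact ⟨⟨m, q, h1, h2, L⟩⟩

/-- The code of a shape. -/
noncomputable def code {k n : ℕ} {g : V n ≃ₗ[K] V n} (s : Shape k n g) :
    Fin (k + 1) × (Fin k → Fin (n + 1) → ZMod 2) :=
  (⟨s.m, Nat.lt_succ_of_le s.hm⟩, fun a c => if h : a.1 < s.m then (s.q ⟨a.1, h⟩).coeff c.1 else 0)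

lemma iso_of_code {k n : ℕ} {g g' : V n ≃ₗ[K] V n} (s : Shape k n g) (s' : Shape k n g')
    (h : code s = code s') :
    Nonempty (AEval' (g : V n →ₗ[K] V n) ≃ₗ[K[X]] AEval' (g' : V n →ₗ[K] V n)) := by
  obtain ⟨m, q, hm, hq, L⟩ := s
  obtain ⟨m', q', hm', hq', L'⟩ := s'
  rw [code, code, Prod.mk.injEq, Fin.mk.injEq] at h
  obtain ⟨h1, h2⟩ := h
  dsimp only at h1
  subst h1
  have hqq : q = q' := by
    funext i
    ext c
    by_cases hc : c < n + 1
    · have h3 := congrFun (congrFun h2 ⟨i.1, by omega⟩) ⟨c, hc⟩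
      simpa using h3
    · rw [coeff_eq_zero_of_natDegree_lt (lt_of_le_of_lt (hq i) (by omega)),
        coeff_eq_zero_of_natDegree_lt (lt_of_le_of_lt (hq' i) (by omega))]
  subst hqq
  exact ⟨L ≪≫ₗ L'.symm⟩

end CONJ_

open CONJ_

/-- CONJ: few conjugacy classes. -/
theorem p_CONJ : T_CONJ := by
  classical
  intro k n hk hn
  refine ⟨Fin (k + 1) × (Fin k → Fin (n + 1) → ZMod 2), inferInstance,
    fun g => if h : LongOrb k g then code (shape hk hn g h).some else (0, 0), ?_, ?_⟩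
  · rw [Fintype.card_prod, Fintype.card_fin, Fintype.card_fun, Fintype.card_fun, ZMod.card,
      Fintype.card_fin, Fintype.card_fin, ← pow_mul]
  · intro g g' hg hg' _ _ h
    simp only [hg, hg', dif_pos] at h
    obtain ⟨e⟩ := iso_of_code _ _ h
    refine ⟨(AEval'.of (g : V n →ₗ[K] V n)) ≪≫ₗ e.restrictScalars K ≪≫ₗ
      (AEval'.of (g' : V n →ₗ[K] V n)).symm, fun x => ?_⟩
    have h1 : AEval'.of (g : V n →ₗ[K] V n) (g x) =
        (X : K[X]) • AEval'.of (g : V n →ₗ[K] V n) x := (AEval'.X_smul_of _ _).symm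
    change (AEval'.of (g' : V n →ₗ[K] V n)).symm (e (AEval'.of (g : V n →ₗ[K] V n) (g x))) =
      g' ((AEval'.of (g' : V n →ₗ[K] V n)).symm (e (AEval'.of (g : V n →ₗ[K] V n) x)))
    rw [h1, map_smul, AEval'.of_symm_X_smul]
    rfl

/-- GEN: few generators. -/
theorem p_GEN : T_GEN := by
  classical
  intro k n hk hn g hg _
  obtain ⟨⟨m, q, hm, hq, L⟩⟩ := shape hk hn g hg
  let u : Fin m → V n := fun i => (AEval'.of (g : V n →ₗ[K] V n)).symm
    (L.symm (Pi.single i (Submodule.Quotient.mk 1)))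
  refine ⟨fun a => if h : a.1 < m then u ⟨a.1, h⟩ else 0, ?_⟩
  rw [eq_top_iff]
  intro x _
  set S := Submodule.span (ZMod 2)
    {y | ∃ (j : ℕ) (a : Fin k), y = (g ^ j) (if h : a.1 < m then u ⟨a.1, h⟩ else 0)} with hS
  have h1 : ∀ (r : K[X]) (i : Fin m),
      (AEval'.of (g : V n →ₗ[K] V n)).symm (r • AEval'.of (g : V n →ₗ[K] V n) (u i)) ∈ S := by
    intro r i
    induction r using Polynomial.induction_on' with
    | add p q hp hq => rw [add_smul, map_add]; exact S.add_mem hp hq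
    | monomial j a =>
      rw [← C_mul_X_pow_eq_monomial, mul_smul, AEval'.X_pow_smul_of, AEval.C_smul, map_smul,
        LinearEquiv.symm_apply_apply]
      refine S.smul_mem _ (Submodule.subset_span ⟨j, ⟨i.1, by omega⟩, ?_⟩)
      rw [dif_pos i.2, lin_pow]
      rfl
  have h2 : x = ∑ i, (AEval'.of (g : V n →ₗ[K] V n)).symm
      (((L (AEval'.of (g : V n →ₗ[K] V n) x)) i).out • AEval'.of (g : V n →ₗ[K] V n) (u i)) := by
    rw [← map_sum, LinearEquiv.eq_symm_apply]
    apply L.injective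
    rw [map_sum]
    ext i
    simp only [map_smul, u, LinearEquiv.apply_symm_apply]
    rw [Finset.sum_apply, Finset.sum_eq_single i]
    · rw [Pi.smul_apply, Pi.single_eq_same]
      have h3 := Quotient.out_eq ((L (AEval'.of (g : V n →ₗ[K] V n) x)) i)
      rw [← Submodule.Quotient.mk_smul, smul_eq_mul, mul_one]
      exact h3.symm
    · intro j _ hj
      rw [Pi.smul_apply, Pi.single_eq_of_ne hj.symm, smul_zero]
    · intro h
      exact absurd (Finset.mem_univ _) h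
  rw [h2]
  exact S.sum_mem fun i _ => h1 _ i

end Pool.Agent.SYA
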