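import Pool.Agent.SYA.Targets

/-!
# DIM: the number of equivariant bilinear maps
-/

set_option autoImplicit false

namespace Pool.Agent.SYA

open Module
open scoped BigOperators

namespace DIM_

variable {K Ω : Type} [Field K] [Field Ω] [Algebra K Ω] {n : ℕ}

/-- the bilinear map with given structure constants -/
def bl (t : Fin n → Fin n → Fin n → K) (x y : Fin n → K) : Fin n → K :=
  fun r => ∑ i, ∑ j, t i j r * x i * y j

variable (Ω) in
/-- the coordinatewise embedding -/
def io (x : Fin n → K) : Fin n → Ω := fun i => algebraMap K Ω (x i)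

variable (Ω) in
/-- extension of scalars of a linear map -/
noncomputable def ex (g : (Fin n → K) →ₗ[K] (Fin n → K)) : (Fin n → Ω) →ₗ[Ω] (Fin n → Ω) :=
  Matrix.toLin' ((LinearMap.toMatrix' g).map (algebraMap K Ω))

variable (Ω) in
/-- the extension of a bilinear map -/
def eb (t : Fin n → Fin n → Fin n → K) :
    (Fin n → Ω) →ₗ[Ω] (Fin n → Ω) →ₗ[Ω] (Fin n → Ω) :=
  LinearMap.mk₂ Ω (fun x y r => ∑ i, ∑ j, algebraMap K Ω (t i j r) * x i * y j)
    (by
      intro x x' y
      funext r
      simp only [Pi.add_apply]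
      rw [← Finset.sum_add_distrib]
      refine Finset.sum_congr rfl fun i _ => ?_
      rw [← Finset.sum_add_distrib]
      exact Finset.sum_congr rfl fun j _ => by ring)
    (by
      intro a x y
      funext r
      simp only [Pi.smul_apply, smul_eq_mul]
      rw [Finset.mul_sum]
      refine Finset.sum_congr rfl fun i _ => ?_
      rw [Finset.mul_sum]
      exact Finset.sum_congr rfl fun j _ => by ring)
    (by
      intro x y y'
      funext r
      simp only [Pi.add_apply]
      rw [← Finset.sum_add_distrib]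
      refine Finset.sum_congr rfl fun i _ => ?_
      rw [← Finset.sum_add_distrib]
      exact Finset.sum_congr rfl fun j _ => by ring)
    (by
      intro a x y
      funext r
      simp only [Pi.smul_apply, smul_eq_mul]
      rw [Finset.mul_sum]
      refine Finset.sum_congr rfl fun i _ => ?_
      rw [Finset.mul_sum]
      exact Finset.sum_congr rfl fun j _ => by ring)

theorem eb_apply (t : Fin n → Fin n → Fin n → K) (x y : Fin n → Ω) (r : Fin n) :
    eb Ω t x y r = ∑ i, ∑ j, algebraMap K Ω (t i j r) * x i * y j := rfl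

theorem eb_single (t : Fin n → Fin n → Fin n → K) (i j r : Fin n) :
    eb Ω t (Pi.single i 1) (Pi.single j 1) r = algebraMap K Ω (t i j r) := by
  rw [eb_apply, Finset.sum_eq_single i]
  · rw [Finset.sum_eq_single j]
    · rw [Pi.single_eq_same, Pi.single_eq_same, mul_one, mul_one]
    · intro j' _ hj
      rw [Pi.single_eq_of_ne hj, mul_zero]
    · intro h
      exact absurd (Finset.mem_univ _) h
  · intro i' _ hi
    refine Finset.sum_eq_zero fun j' _ => ?_
    rw [Pi.single_eq_of_ne hi, mul_zero, zero_mul]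
  · intro h
    exact absurd (Finset.mem_univ _) h

theorem sum_single (x : Fin n → K) : x = ∑ i, x i • (Pi.single i 1 : Fin n → K) := by
  funext j
  rw [Finset.sum_apply, Finset.sum_eq_single j]
  · rw [Pi.smul_apply, Pi.single_eq_same, smul_eq_mul, mul_one]
  · intro i _ hi
    rw [Pi.smul_apply, Pi.single_eq_of_ne (Ne.symm hi), smul_zero]
  · intro h
    exact absurd (Finset.mem_univ _) h

/-- the structure constants of a bilinear map -/
theorem bl_str (B : (Fin n → K) →ₗ[K] (Fin n → K) →ₗ[K] (Fin n → K)) (x y : Fin n → K) :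
    B x y = bl (fun i j r => B (Pi.single i 1) (Pi.single j 1) r) x y := by
  funext r
  unfold bl
  conv_lhs => rw [sum_single x, sum_single y]
  simp only [map_sum, map_smul, LinearMap.sum_apply, LinearMap.smul_apply, Finset.sum_apply,
    Pi.smul_apply, smul_eq_mul, Finset.mul_sum]
  rw [Finset.sum_comm]
  refine Finset.sum_congr rfl fun i _ => Finset.sum_congr rfl fun j _ => ?_
  ring

theorem eb_io (t : Fin n → Fin n → Fin n → K) (x y : Fin n → K) :
    eb Ω t (io Ω x) (io Ω y) = io Ω (bl t x y) := by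
  funext r
  rw [eb_apply]
  unfold io bl
  rw [map_sum]
  refine Finset.sum_congr rfl fun i _ => ?_
  rw [map_sum]
  refine Finset.sum_congr rfl fun j _ => ?_
  rw [map_mul, map_mul]

theorem ex_io (g : (Fin n → K) →ₗ[K] (Fin n → K)) (x : Fin n → K) :
    ex Ω g (io Ω x) = io Ω (g x) := by
  funext r
  unfold ex
  rw [Matrix.toLin'_apply]
  have h : g x = (LinearMap.toMatrix' g).mulVec x := by
    rw [← Matrix.toLin'_apply, Matrix.toLin'_toMatrix']
  unfold io
  rw [h]
  unfold Matrix.mulVec dotProduct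
  rw [map_sum]
  refine Finset.sum_congr rfl fun j _ => ?_
  rw [map_mul]
  rfl

theorem io_single (i : Fin n) : io Ω (Pi.single i 1 : Fin n → K) = Pi.single i 1 := by
  funext j
  unfold io
  by_cases h : j = i
  · rw [h, Pi.single_eq_same, Pi.single_eq_same, map_one]
  · rw [Pi.single_eq_of_ne h, Pi.single_eq_of_ne h, map_zero]

/-- the extension is equivariant -/
theorem eb_equi (g h : (Fin n → K) →ₗ[K] (Fin n → K)) (t : Fin n → Fin n → Fin n → K)
    (ht : ∀ x y, bl t (g x) (g y) = h (bl t x y)) (x y : Fin n → Ω) :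
    eb Ω t (ex Ω g x) (ex Ω g y) = ex Ω h (eb Ω t x y) := by
  have key : (eb Ω t).compl₁₂ (ex Ω g) (ex Ω g) = (eb Ω t).compr₂ (ex Ω h) := by
    refine (Pi.basisFun Ω (Fin n)).ext fun i => (Pi.basisFun Ω (Fin n)).ext fun j => ?_
    rw [LinearMap.compl₁₂_apply, LinearMap.compr₂_apply, Pi.basisFun_apply, Pi.basisFun_apply,
      ← io_single (K := K) (Ω := Ω) i, ← io_single (K := K) (Ω := Ω) j, ex_io, ex_io, eb_io,
      eb_io, ex_io, ht]
  have := congrArg (fun F => F x y) key
  simpa only [LinearMap.compl₁₂_apply, LinearMap.compr₂_apply] using this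

/-- the coordinates of an image -/
theorem coord_ex (h : (Fin n → Ω) →ₗ[Ω] (Fin n → Ω)) (c : Basis (Fin n) Ω (Fin n → Ω))
    (m : Fin n → Ω) (hc : ∀ i, h (c i) = m i • c i)
    (v : Fin n → Ω) (r : Fin n) : c.coord r (h v) = m r * c.coord r v := by
  have key : (c.coord r).comp h = m r • c.coord r := by
    refine c.ext fun i => ?_
    rw [LinearMap.comp_apply, hc, map_smul, LinearMap.smul_apply]
    by_cases hir : i = r
    · rw [hir]
    · rw [c.coord_apply, c.repr_self, Finsupp.single_eq_of_ne (Ne.symm hir), smul_zero, smul_zero]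
  have := congrArg (fun F => F v) key
  simpa only [LinearMap.comp_apply, LinearMap.smul_apply, smul_eq_mul] using this

theorem indep1 {D : ℕ} (B : Fin D → (Fin n → Fin n → Fin n → K))
    (c : Fin D → Ω) (hc : ∑ s, c s • eb Ω (B s) = 0) (f : Dual K Ω)
    (i j r : Fin n) : ∑ s, f (c s) * B s i j r = 0 := by
  have h2 := congrArg (fun F : (Fin n → Ω) →ₗ[Ω] (Fin n → Ω) →ₗ[Ω] (Fin n → Ω) =>
    F (Pi.single i 1) (Pi.single j 1) r) hc
  simp only [LinearMap.sum_apply, LinearMap.smul_apply, Finset.sum_apply, Pi.smul_apply,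
    smul_eq_mul, LinearMap.zero_apply, Pi.zero_apply, eb_single] at h2
  have h3 := congrArg f h2
  rw [map_zero, map_sum] at h3
  rw [← h3]
  refine Finset.sum_congr rfl fun s _ => ?_
  rw [mul_comm (c s), ← Algebra.smul_def, map_smul, smul_eq_mul, mul_comm]

/-- linear independence over the large field -/
theorem indep {D : ℕ} (B : Fin D → (Fin n → Fin n → Fin n → K)) (hB : LinearIndependent K B)
    (c : Fin D → Ω) (hc : ∑ s, c s • eb Ω (B s) = 0) : ∀ s, c s = 0 := by
  intro s
  rw [← Module.forall_dual_apply_eq_zero_iff K]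
  intro f
  have h1 : ∑ s, f (c s) • B s = 0 := by
    funext i j r
    rw [Finset.sum_apply, Finset.sum_apply, Finset.sum_apply]
    exact indep1 B c hc f i j r
  rw [Fintype.linearIndependent_iff] at hB
  exact hB _ h1 s

theorem bl_add (t t' : Fin n → Fin n → Fin n → K) (x y : Fin n → K) :
    bl (t + t') x y = bl t x y + bl t' x y := by
  funext r
  rw [Pi.add_apply]
  unfold bl
  rw [← Finset.sum_add_distrib]
  refine Finset.sum_congr rfl fun i _ => ?_
  rw [← Finset.sum_add_distrib]
  refine Finset.sum_congr rfl fun j _ => ?_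
  rw [Pi.add_apply, Pi.add_apply, Pi.add_apply]
  ring

theorem bl_smul (a : K) (t : Fin n → Fin n → Fin n → K) (x y : Fin n → K) :
    bl (a • t) x y = a • bl t x y := by
  funext r
  rw [Pi.smul_apply]
  unfold bl
  rw [smul_eq_mul, Finset.mul_sum]
  refine Finset.sum_congr rfl fun i _ => ?_
  rw [Finset.mul_sum]
  refine Finset.sum_congr rfl fun j _ => ?_
  rw [Pi.smul_apply, Pi.smul_apply, Pi.smul_apply, smul_eq_mul]
  ring

/-- the space of the equivariant maps -/
def W (g h : (Fin n → K) →ₗ[K] (Fin n → K)) : Submodule K (Fin n → Fin n → Fin n → K) where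
  carrier := {t | ∀ x y, bl t (g x) (g y) = h (bl t x y)}
  add_mem' := by
    intro t t' h1 h2 x y
    rw [bl_add, bl_add, h1 x y, h2 x y, map_add]
  zero_mem' := by
    intro x y
    have h0 : ∀ x y : Fin n → K, bl (0 : Fin n → Fin n → Fin n → K) x y = 0 := by
      intro x y
      have := bl_smul (0 : K) (0 : Fin n → Fin n → Fin n → K) x y
      rwa [zero_smul, zero_smul] at this
    rw [h0, h0, map_zero]
  smul_mem' := by
    intro a t h1 x y
    rw [bl_smul, bl_smul, h1 x y, map_smul]

theorem gen (g h : (Fin n → K) →ₗ[K] (Fin n → K)) (b c : Basis (Fin n) Ω (Fin n → Ω))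
    (l m : Fin n → Ω) (hb : ∀ i, ex Ω g (b i) = l i • b i) (hc : ∀ i, ex Ω h (c i) = m i • c i) :
    finrank K (W g h) ≤ Nat.card {p : Fin n × Fin n × Fin n // l p.1 * l p.2.1 = m p.2.2} := by
  classical
  obtain ⟨D, hD⟩ : ∃ D, D = finrank K (W g h) := ⟨_, rfl⟩
  rw [← hD]
  obtain ⟨B, hBW, hBi⟩ : ∃ B : Fin D → (Fin n → Fin n → Fin n → K), (∀ s, B s ∈ W g h) ∧
      LinearIndependent K B := by
    refine ⟨fun s => ((finBasisOfFinrankEq K (W g h) hD.symm) s : Fin n → Fin n → Fin n → K),
      fun s => Subtype.property _, ?_⟩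
    have := (finBasisOfFinrankEq K (W g h) hD.symm).linearIndependent
    exact this.map' (W g h).subtype (Submodule.ker_subtype _)
  -- coordinates off the triples vanish
  have hoff : ∀ s i j r, l i * l j ≠ m r → c.coord r (eb Ω (B s) (b i) (b j)) = 0 := by
    intro s i j r hne
    have h1 := eb_equi g h (B s) (hBW s) (b i) (b j)
    rw [hb, hb, map_smul, map_smul, LinearMap.smul_apply, smul_smul] at h1
    have h2 := coord_ex (ex Ω h) c m hc (eb Ω (B s) (b i) (b j)) r
    rw [← h1, map_smul, smul_eq_mul] at h2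
    have h3 : (l j * l i - m r) * c.coord r (eb Ω (B s) (b i) (b j)) = 0 := by
      rw [sub_mul, h2, sub_self]
    rcases mul_eq_zero.1 h3 with h4 | h4
    · exact absurd (by rw [mul_comm]; exact sub_eq_zero.1 h4) hne
    · exact h4
  obtain ⟨Φ, hΦ⟩ : ∃ Φ : (Fin D → Ω) →ₗ[Ω]
      ({p : Fin n × Fin n × Fin n // l p.1 * l p.2.1 = m p.2.2} → Ω),
      ∀ a p, Φ a p = ∑ s, a s * c.coord p.1.2.2 (eb Ω (B s) (b p.1.1) (b p.1.2.1)) := by
    refine ⟨{ toFun := fun a p => ∑ s, a s * c.coord p.1.2.2 (eb Ω (B s) (b p.1.1) (b p.1.2.1))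
              map_add' := ?_
              map_smul' := ?_ }, fun _ _ => rfl⟩
    · intro a a'
      funext p
      simp only [Pi.add_apply]
      rw [← Finset.sum_add_distrib]
      exact Finset.sum_congr rfl fun s _ => by ring
    · intro z a
      funext p
      simp only [Pi.smul_apply, smul_eq_mul, RingHom.id_apply]
      rw [Finset.mul_sum]
      exact Finset.sum_congr rfl fun s _ => by ring
  have hinj : Function.Injective Φ := by
    rw [← LinearMap.ker_eq_bot, LinearMap.ker_eq_bot']
    intro a ha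
    funext s
    refine indep B hBi a ?_ s
    refine b.ext fun i => b.ext fun j => ?_
    rw [LinearMap.zero_apply, LinearMap.zero_apply]
    refine (Basis.ext_elem_iff c).2 fun r => ?_
    rw [map_zero, Finsupp.zero_apply, ← c.coord_apply]
    simp only [LinearMap.sum_apply, LinearMap.smul_apply, map_sum, map_smul, smul_eq_mul]
    by_cases hp : l i * l j = m r
    · have h1 := hΦ a ⟨(i, j, r), hp⟩
      rw [ha, Pi.zero_apply] at h1
      exact h1.symm
    · exact Finset.sum_eq_zero fun s _ => by rw [hoff s i j r hp, mul_zero]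
  have h1 := LinearMap.finrank_le_finrank_of_injective hinj
  rw [Module.finrank_fin_fun, Module.finrank_fintype_fun_eq_card] at h1
  rw [Nat.card_eq_fintype_card]
  exact h1

theorem gen2 [Finite K] (g h : (Fin n → K) →ₗ[K] (Fin n → K))
    (b c : Basis (Fin n) Ω (Fin n → Ω))
    (l m : Fin n → Ω) (hb : ∀ i, ex Ω g (b i) = l i • b i) (hc : ∀ i, ex Ω h (c i) = m i • c i) :
    Nat.card {B : (Fin n → K) →ₗ[K] (Fin n → K) →ₗ[K] (Fin n → K) //
      ∀ x y, B (g x) (g y) = h (B x y)} ≤
      Nat.card K ^ Nat.card {p : Fin n × Fin n × Fin n // l p.1 * l p.2.1 = m p.2.2} := by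
  have h0 : Nat.card {B : (Fin n → K) →ₗ[K] (Fin n → K) →ₗ[K] (Fin n → K) //
      ∀ x y, B (g x) (g y) = h (B x y)} ≤ Nat.card (W g h) := by
    refine Nat.card_le_card_of_injective (fun B =>
      (⟨fun i j r => B.1 (Pi.single i 1) (Pi.single j 1) r, fun x y => ?_⟩ : W g h)) ?_
    · rw [← bl_str, ← bl_str]
      exact B.2 x y
    · intro B B' hBB
      have h1 : (fun i j r => B.1 (Pi.single i 1) (Pi.single j 1) r) =
        (fun i j r => B'.1 (Pi.single i 1) (Pi.single j 1) r) := congrArg Subtype.val hBB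
      refine Subtype.ext (LinearMap.ext fun x => LinearMap.ext fun y => ?_)
      rw [bl_str, h1, ← bl_str]
  refine le_trans h0 ?_
  rw [Module.natCard_eq_pow_finrank (K := K)]
  exact Nat.pow_le_pow_right Nat.card_pos (gen g h b c l m hb hc)

end DIM_

open DIM_ in
theorem p_DIM : T_DIM := by
  intro n g h b c l m hb hc
  have h1 := gen2 (K := ZMod 2) (Ω := Om) (g : V n →ₗ[ZMod 2] V n) (h : V n →ₗ[ZMod 2] V n)
    b c l m hb hc
  rw [Nat.card_zmod] at h1
  exact h1

end Pool.Agent.SYA
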