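import Pool.Agent.SYA.Targets

set_option autoImplicit false

/-!
# Targets EIG3 and EIG4: multiplicity of the eigenvalues, closure under squaring
-/

namespace Pool.Agent.SYA

open Module
open scoped BigOperators

namespace EI3_

/-- the inclusion of the vectors over the field with two elements -/
noncomputable def io {n : ℕ} (x : V n) : Fin n → Om := fun i => algebraMap (ZMod 2) Om (x i)

theorem ext_apply {n : ℕ} (g : V n →ₗ[ZMod 2] V n) (x : Fin n → Om) (i : Fin n) :
    ext g x i = ∑ j, algebraMap (ZMod 2) Om (LinearMap.toMatrix' g i j) * x j := by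
  simp only [ext, Matrix.toLin'_apply, Matrix.mulVec, dotProduct, Matrix.map_apply]

theorem apply_eq {n : ℕ} (g : V n →ₗ[ZMod 2] V n) (x : V n) (i : Fin n) :
    g x i = ∑ j, LinearMap.toMatrix' g i j * x j := by
  have h : g x = (LinearMap.toMatrix' g).mulVec x := by
    rw [← Matrix.toLin'_apply, Matrix.toLin'_toMatrix']
  rw [h]
  rfl

theorem ext_io {n : ℕ} (g : V n →ₗ[ZMod 2] V n) (x : V n) : ext g (io x) = io (g x) := by
  funext i
  rw [ext_apply]
  unfold io
  rw [apply_eq, map_sum]
  refine Finset.sum_congr rfl fun j _ => ?_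
  rw [map_mul]

theorem ext_pow_io {n : ℕ} (g : V n ≃ₗ[ZMod 2] V n) (j : ℕ) (x : V n) :
    ((ext (g : V n →ₗ[ZMod 2] V n)) ^ j) (io x) = io ((g ^ j) x) := by
  induction j with
  | zero => simp
  | succ j ih =>
    rw [pow_succ', Module.End.mul_apply, ih, ext_io, pow_succ']
    rfl

theorem repr_ext {n : ℕ} (E : (Fin n → Om) →ₗ[Om] (Fin n → Om))
    (b : Basis (Fin n) Om (Fin n → Om)) (l : Fin n → Om) (hb : ∀ i, E (b i) = l i • b i)
    (x : Fin n → Om) (i : Fin n) : b.repr (E x) i = l i * b.repr x i := by
  have h : (b.coord i).comp E = l i • b.coord i := by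
    refine b.ext fun j => ?_
    rw [LinearMap.comp_apply, hb, map_smul, LinearMap.smul_apply]
    rw [Basis.coord_apply, Basis.repr_self, smul_eq_mul, smul_eq_mul]
    by_cases hij : j = i
    · subst hij
      rfl
    · rw [Finsupp.single_apply, if_neg hij, mul_zero, mul_zero]
  have h2 := LinearMap.congr_fun h x
  simpa [Basis.coord_apply] using h2

theorem repr_ext_pow {n : ℕ} (E : (Fin n → Om) →ₗ[Om] (Fin n → Om))
    (b : Basis (Fin n) Om (Fin n → Om)) (l : Fin n → Om) (hb : ∀ i, E (b i) = l i • b i)
    (j : ℕ) (x : Fin n → Om) (i : Fin n) : b.repr ((E ^ j) x) i = l i ^ j * b.repr x i := by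
  induction j with
  | zero => simp
  | succ j ih =>
    rw [pow_succ', Module.End.mul_apply, repr_ext E b l hb, ih]
    ring

theorem io_add {n : ℕ} (x y : V n) : io (x + y) = io x + io y := by
  funext i
  simp [io]

theorem io_smul {n : ℕ} (c : ZMod 2) (x : V n) : io (c • x) = (algebraMap (ZMod 2) Om c) • io x := by
  funext i
  simp [io]

/-- the images of a spanning set span -/
theorem span_io {n : ℕ} (s : Set (V n)) (hs : Submodule.span (ZMod 2) s = ⊤) :
    Submodule.span Om (io '' s) = ⊤ := by
  have h1 : ∀ y : V n, io y ∈ Submodule.span Om (io '' s) := by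
    intro y
    have hy : y ∈ Submodule.span (ZMod 2) s := by rw [hs]; exact Submodule.mem_top
    induction hy using Submodule.span_induction with
    | mem x hx => exact Submodule.subset_span ⟨x, hx, rfl⟩
    | zero =>
      have : io (0 : V n) = 0 := by funext i; simp [io]
      rw [this]
      exact Submodule.zero_mem _
    | add x y _ _ hx hy => rw [io_add]; exact Submodule.add_mem _ hx hy
    | smul c x _ hx => rw [io_smul]; exact Submodule.smul_mem _ _ hx
  rw [eq_top_iff]
  intro x _
  have h2 : x = ∑ i, x i • io (Pi.single i (1 : ZMod 2)) := by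
    funext j
    rw [Finset.sum_apply]
    simp only [Pi.smul_apply, smul_eq_mul, io]
    rw [Finset.sum_eq_single j]
    · simp
    · intro i _ hij
      rw [Pi.single_apply, if_neg (fun h => hij h.symm), map_zero, mul_zero]
    · intro h
      exact absurd (Finset.mem_univ j) h
  rw [h2]
  exact Submodule.sum_mem _ fun i _ => Submodule.smul_mem _ _ (h1 _)

/-- the coordinatewise square -/
noncomputable def fr {n : ℕ} (x : Fin n → Om) : Fin n → Om := fun i => x i ^ 2

theorem sq_map (c : ZMod 2) : (algebraMap (ZMod 2) Om c) ^ 2 = algebraMap (ZMod 2) Om c := by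
  rw [← map_pow]
  congr 1
  revert c
  decide

instance : CharP Om 2 := charP_of_injective_algebraMap (algebraMap (ZMod 2) Om).injective 2

theorem ext_fr {n : ℕ} (g : V n →ₗ[ZMod 2] V n) (x : Fin n → Om) :
    ext g (fr x) = fr (ext g x) := by
  funext i
  unfold fr
  rw [ext_apply, ext_apply, sum_pow_char]
  refine Finset.sum_congr rfl fun j _ => ?_
  rw [mul_pow, sq_map]

end EI3_

open EI3_ in
theorem p_EIG3 : T_EIG3 := by
  classical
  intro n k g b l hb hv z
  obtain ⟨v, hv⟩ := hv
  set E := ext (g : V n →ₗ[ZMod 2] V n) with hE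
  -- the coordinates at the eigenvalue `z`
  let pr : (Fin n → Om) →ₗ[Om] ({i // l i = z} → Om) :=
    LinearMap.pi fun i => b.coord i.1
  have hpr : ∀ x i, pr x i = b.repr x i.1 := fun x i => rfl
  have hsurj : Function.Surjective pr := by
    intro y
    refine ⟨∑ i : {i // l i = z}, y i • b i.1, ?_⟩
    funext j
    rw [hpr, map_sum, Finset.sum_apply']
    rw [Finset.sum_eq_single j]
    · rw [map_smul, Finsupp.smul_apply, Basis.repr_self, Finsupp.single_eq_same, smul_eq_mul,
        mul_one]
    · intro i _ hij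
      rw [map_smul, Finsupp.smul_apply, Basis.repr_self, Finsupp.single_apply,
        if_neg (fun h => hij (Subtype.ext h)), smul_zero]
    · intro h
      exact absurd (Finset.mem_univ j) h
  have hspan := span_io _ hv
  have htop : Submodule.span Om (Set.range fun a : Fin k => pr (io (v a))) = ⊤ := by
    rw [eq_top_iff, ← LinearMap.range_eq_top.2 hsurj, LinearMap.range_eq_map, ← hspan,
      Submodule.map_span, Submodule.span_le]
    rintro _ ⟨_, ⟨_, ⟨j, a, rfl⟩, rfl⟩, rfl⟩
    have h1 : pr (io ((g ^ j) (v a))) = z ^ j • pr (io (v a)) := by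
      funext i
      rw [← ext_pow_io, hpr, Pi.smul_apply, hpr, repr_ext_pow _ b l hb, i.2, smul_eq_mul]
    rw [h1]
    exact Submodule.smul_mem _ _ (Submodule.subset_span ⟨a, rfl⟩)
  have h2 : Module.finrank Om ({i // l i = z} → Om) ≤ k := by
    have h3 := finrank_range_le_card (R := Om) (fun a : Fin k => pr (io (v a)))
    rw [Set.finrank, htop, finrank_top, Fintype.card_fin] at h3
    exact h3
  rw [Module.finrank_fintype_fun_eq_card] at h2
  rw [Nat.card_eq_fintype_card]
  exact h2

open EI3_ in
theorem p_EIG4 : T_EIG4 := by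
  intro n g b l hb i
  have h1 : ext (g : V n →ₗ[ZMod 2] V n) (fr (b i)) = (l i ^ 2) • fr (b i) := by
    rw [ext_fr, hb]
    funext j
    simp only [fr, Pi.smul_apply, smul_eq_mul, mul_pow]
  have h2 : fr (b i) ≠ 0 := by
    intro h
    apply b.ne_zero i
    funext j
    have h3 := congrFun h j
    simp only [fr, Pi.zero_apply] at h3
    exact pow_eq_zero_iff (two_ne_zero) |>.1 h3
  have h4 : b.repr (fr (b i)) ≠ 0 := by
    intro h
    exact h2 (b.repr.map_eq_zero_iff.1 h)
  obtain ⟨j, hj⟩ := Finsupp.ne_iff.1 h4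
  refine ⟨j, ?_⟩
  have h5 := repr_ext _ b l hb (fr (b i)) j
  rw [h1, map_smul, Finsupp.smul_apply, smul_eq_mul] at h5
  exact (mul_right_cancel₀ hj h5).symm

end Pool.Agent.SYA
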