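import Mathlib
import Pool.Agent.SYA.Targets

set_option autoImplicit false

/-!
# A basis of eigenvectors over the algebraic closure, and the order of the eigenvalues
-/

namespace Pool.Agent.SYA

open Module
open scoped BigOperators

theorem ext_comp {n : ℕ} (g h : V n →ₗ[ZMod 2] V n) : ext (g ∘ₗ h) = ext g ∘ₗ ext h := by
  unfold ext
  rw [LinearMap.toMatrix'_comp, Matrix.map_mul, Matrix.toLin'_mul]

theorem ext_id {n : ℕ} : ext (LinearMap.id : V n →ₗ[ZMod 2] V n) = LinearMap.id := by
  unfold ext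
  rw [LinearMap.toMatrix'_id, Matrix.map_one _ (map_zero _) (map_one _), Matrix.toLin'_one]

theorem ext_pow {n : ℕ} (g : V n ≃ₗ[ZMod 2] V n) (j : ℕ) :
    ext ((g ^ j : V n ≃ₗ[ZMod 2] V n) : V n →ₗ[ZMod 2] V n)
      = (ext (g : V n →ₗ[ZMod 2] V n) : End Om (Fin n → Om)) ^ j := by
  induction j with
  | zero =>
    rw [pow_zero, pow_zero]
    exact ext_id
  | succ j ih =>
    rw [pow_succ, pow_succ, ← ih]
    exact ext_comp _ _

theorem p_EIG1 : T_EIG1 := by
  classical
  intro n g hg
  obtain ⟨N, hN, hgN⟩ := hg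
  set E : End Om (Fin n → Om) := ext (g : V n →ₗ[ZMod 2] V n) with hE
  have hEN : E ^ N = 1 := by
    rw [hE, ← ext_pow, hgN]
    exact ext_id
  have hN0 : (N : Om) ≠ 0 := by
    have h2 : (2 : Om) = 0 := by
      have := CharP.cast_eq_zero Om 2
      exact_mod_cast this
    obtain ⟨m, hm⟩ := hN
    rw [hm]
    push_cast
    rw [h2]
    simp
  have hsq : Squarefree (Polynomial.X ^ N - 1 : Polynomial Om) :=
    (Polynomial.X_pow_sub_one_separable_iff.2 hN0).squarefree
  have hss : E.IsSemisimple := by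
    refine Module.End.isSemisimple_of_squarefree_aeval_eq_zero hsq ?_
    simp [hEN]
  have htop : ⨆ μ : Om, E.eigenspace μ = ⊤ := by
    have h1 := Module.End.iSup_maxGenEigenspace_eq_top E
    have h2 : ∀ μ : Om, E.maxGenEigenspace μ = E.eigenspace μ := fun μ =>
      hss.isFinitelySemisimple.maxGenEigenspace_eq_eigenspace μ
    simpa only [h2] using h1
  have hint : DirectSum.IsInternal fun μ : Om => E.eigenspace μ :=
    (DirectSum.isInternal_submodule_iff_iSupIndep_and_iSup_eq_top _).2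
      ⟨E.eigenspaces_iSupIndep, htop⟩
  let B := fun μ : Om => Module.finBasis Om (E.eigenspace μ)
  let b0 := hint.collectedBasis B
  let e := b0.indexEquiv (Pi.basisFun Om (Fin n))
  refine ⟨b0.reindex e, fun i => (e.symm i).1, fun i => ?_⟩
  have h1 : b0 (e.symm i) ∈ E.eigenspace (e.symm i).1 := hint.collectedBasis_mem B _
  rw [Basis.reindex_apply]
  exact Module.End.mem_eigenspace_iff.1 h1

theorem p_EIG2 : T_EIG2 := by
  intro n k g b l hb hlong i
  set E : End Om (Fin n → Om) := ext (g : V n →ₗ[ZMod 2] V n) with hE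
  constructor
  · intro h0
    have h1 : E (b i) = 0 := by rw [hb i, h0, zero_smul]
    have h2 : ext ((g.symm : V n ≃ₗ[ZMod 2] V n) : V n →ₗ[ZMod 2] V n) (E (b i)) = b i := by
      have h3 : ext ((g.symm : V n ≃ₗ[ZMod 2] V n) : V n →ₗ[ZMod 2] V n) ∘ₗ E
          = LinearMap.id := by
        rw [hE, ← ext_comp, ← ext_id]
        congr 1
        ext x
        simp
      have := LinearMap.congr_fun h3 (b i)
      simpa using this
    rw [h1, map_zero] at h2
    exact b.ne_zero i h2.symm
  · intro j hj hjn hlj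
    have h1 : ∀ m : ℕ, (E ^ m) (b i) = l i ^ m • b i := by
      intro m
      induction m with
      | zero => simp
      | succ m ih =>
        rw [pow_succ, Module.End.mul_apply, hb i, map_smul, ih, smul_smul, pow_succ, mul_comm]
    have h2 : (E ^ j) (b i) = b i := by rw [h1, hlj, one_smul]
    rw [hE, ← ext_pow] at h2
    set A : Matrix (Fin n) (Fin n) (ZMod 2) :=
      LinearMap.toMatrix' ((g ^ j : V n ≃ₗ[ZMod 2] V n) : V n →ₗ[ZMod 2] V n) with hA
    have h3 : (A.map (algebraMap (ZMod 2) Om)).mulVec (b i) = b i := by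
      have h4 : ext ((g ^ j : V n ≃ₗ[ZMod 2] V n) : V n →ₗ[ZMod 2] V n) (b i)
          = (A.map (algebraMap (ZMod 2) Om)).mulVec (b i) := by
        unfold ext
        rw [Matrix.toLin'_apply]
      rw [← h4]
      exact h2
    have h5 : ((A - 1).map (algebraMap (ZMod 2) Om)).mulVec (b i) = 0 := by
      have h6 : (A - 1).map (algebraMap (ZMod 2) Om) = A.map (algebraMap (ZMod 2) Om) - 1 := by
        ext r s
        simp [Matrix.one_apply, apply_ite (algebraMap (ZMod 2) Om)]
      rw [h6, Matrix.sub_mulVec, h3, Matrix.one_mulVec, sub_self]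
    have h7 : ((A - 1).map (algebraMap (ZMod 2) Om)).det = 0 :=
      Matrix.exists_mulVec_eq_zero_iff.1 ⟨b i, b.ne_zero i, h5⟩
    have h8 : (A - 1).det = 0 := by
      have h9 : algebraMap (ZMod 2) Om (A - 1).det = 0 := by
        rw [RingHom.map_det]
        exact h7
      exact (map_eq_zero _).1 h9
    obtain ⟨x, hx0, hx⟩ := Matrix.exists_mulVec_eq_zero_iff.2 h8
    refine hlong j hj hjn x hx0 ?_
    rw [Matrix.sub_mulVec, Matrix.one_mulVec, sub_eq_zero] at hx
    have h10 : ((g ^ j : V n ≃ₗ[ZMod 2] V n) : V n →ₗ[ZMod 2] V n) x = A.mulVec x := by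
      rw [hA]
      exact (LinearMap.toMatrix'_mulVec _ _).symm
    have h11 : (g ^ j) x = ((g ^ j : V n ≃ₗ[ZMod 2] V n) : V n →ₗ[ZMod 2] V n) x := rfl
    rw [h11, h10, hx]

end Pool.Agent.SYA
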