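import Mathlib
import Pool.Agent.SYA.Targets

set_option autoImplicit false

/-!
# Quadratic functions on `F_2^n` with an automorphism with long orbits: the assembly
-/

namespace Pool.Agent.SYA

open Module
open scoped BigOperators

namespace MAIN_

variable {n : ℕ}

theorem add_self (x : V n) : x + x = 0 := by
  funext i
  exact CharTwo.add_self_eq_zero (x i)

theorem eq_of_add (x y : V n) (h : x + y = 0) : x = y := by
  have h1 : x + y + y = y := by rw [h, zero_add]
  rwa [add_assoc, add_self, add_zero] at h1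

theorem pol_symm (F : V n → V n) (x y : V n) : pol F x y = pol F y x := by
  unfold pol
  rw [add_comm x y]; abel

theorem pol_zero (F : V n → V n) (y : V n) : pol F 0 y = 0 := by
  unfold pol
  have h1 := add_self (F 0)
  have h2 := add_self (F y)
  rw [zero_add]
  calc F y + F 0 + F y + F 0 = (F 0 + F 0) + (F y + F y) := by abel
    _ = 0 := by rw [h1, h2, add_zero]

theorem aut_pol {F : V n → V n} {g h : V n ≃ₗ[ZMod 2] V n} (H : IsAut F g h) (x y : V n) :
    pol F (g x) (g y) = h (pol F x y) := by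
  obtain ⟨a, b, hab⟩ := H
  have key : ∀ x, F (g x) = h (F x) + (a x + b) := by
    intro x
    rw [← hab x, add_comm (F (g x)), ← add_assoc, add_self, zero_add]
  have h0 : F 0 = h (F 0) + b := by
    have := key 0
    rwa [map_zero, map_zero, zero_add] at this
  unfold pol
  rw [← map_add g, key, key, key]
  conv_lhs => rw [h0]
  rw [map_add, map_add, map_add, map_add]
  have h1 := add_self (a x)
  have h2 := add_self (a y)
  have h3 := add_self b
  calc h (F (x + y)) + (a x + a y + b) + (h (F x) + (a x + b)) + (h (F y) + (a y + b))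
        + (h (F 0) + b)
      = h (F (x + y)) + h (F x) + h (F y) + h (F 0) + ((a x + a x) + (a y + a y) + (b + b)
        + (b + b)) := by abel
    _ = _ := by rw [h1, h2, h3]; simp

theorem pol_pow {F : V n → V n} {g h : V n ≃ₗ[ZMod 2] V n}
    (H : ∀ x y, pol F (g x) (g y) = h (pol F x y)) (j : ℕ) (x y : V n) :
    pol F ((g ^ j) x) ((g ^ j) y) = (h ^ j) (pol F x y) := by
  induction j with
  | zero => simp
  | succ j ih =>
    rw [pow_succ', pow_succ', LinearEquiv.mul_apply, LinearEquiv.mul_apply,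
      LinearEquiv.mul_apply, H, ih]

/-- in characteristic two a power `2^e` of a map without nonzero fixed vectors has none -/
theorem fix_pow (A : V n ≃ₗ[ZMod 2] V n) (hA : ∀ x, A x = x → x = 0) (e : ℕ) :
    ∀ x, (A ^ 2 ^ e) x = x → x = 0 := by
  induction e with
  | zero => intro x hx; exact hA x (by simpa using hx)
  | succ e ih =>
    intro x hx
    have h1 : (A ^ 2 ^ (e + 1)) = A ^ 2 ^ e * A ^ 2 ^ e := by
      rw [← pow_add]; congr 1; ring
    rw [h1, LinearEquiv.mul_apply] at hx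
    have h2 := ih ((A ^ 2 ^ e) x + x) (by
      rw [map_add, hx, add_comm])
    exact ih x (eq_of_add _ _ h2)

theorem long_pow {k : ℕ} {g : V n ≃ₗ[ZMod 2] V n} (hg : LongOrb k g) (e : ℕ) :
    LongOrb k (g ^ 2 ^ e) := by
  intro j hj hjk x hx hfix
  apply hx
  refine fix_pow (g ^ j) (fun y hy => ?_) e x ?_
  · by_contra hy0
    exact hg j hj hjk y hy0 hy
  · rw [← pow_mul, mul_comm, pow_mul]
    exact hfix

theorem odd_part (g : V n ≃ₗ[ZMod 2] V n) : ∃ (e N : ℕ), Odd N ∧ (g ^ 2 ^ e) ^ N = 1 := by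
  have hfin : Finite (V n ≃ₗ[ZMod 2] V n) :=
    Finite.of_injective (fun g : V n ≃ₗ[ZMod 2] V n => (g : V n → V n)) DFunLike.coe_injective
  have hpos : orderOf g ≠ 0 := (orderOf_pos g).ne'
  obtain ⟨e, N, hN, h⟩ := Nat.exists_eq_two_pow_mul_odd hpos
  exact ⟨e, N, hN, by rw [← pow_mul, ← h, pow_orderOf_eq_one]⟩

/-- an automorphism of odd order with long orbits -/
theorem exists_odd {k : ℕ} {F : V n → V n} (hF : LongSym k F) :
    ∃ g h : V n ≃ₗ[ZMod 2] V n, LongOrb k g ∧ LongOrb k h ∧ (∃ N, Odd N ∧ g ^ N = 1) ∧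
      (∃ N, Odd N ∧ h ^ N = 1) ∧ ∀ x y, pol F (g x) (g y) = h (pol F x y) := by
  obtain ⟨g, h, hg, hh, hA⟩ := hF
  obtain ⟨e₁, N₁, hN₁, h₁⟩ := odd_part g
  obtain ⟨e₂, N₂, hN₂, h₂⟩ := odd_part h
  refine ⟨g ^ 2 ^ (e₁ + e₂), h ^ 2 ^ (e₁ + e₂), long_pow hg _, long_pow hh _,
    ⟨N₁, hN₁, ?_⟩, ⟨N₂, hN₂, ?_⟩, fun x y => pol_pow (aut_pol hA) _ x y⟩
  · rw [pow_add, pow_mul, ← pow_mul (g ^ 2 ^ e₁), mul_comm, pow_mul, h₁, one_pow]
  · rw [pow_add, mul_comm, pow_mul, ← pow_mul (h ^ 2 ^ e₂), mul_comm, pow_mul, h₂, one_pow]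

/-- functions with linearly equivalent polarisations are CCZ-equivalent -/
theorem ccz_of_pol {F F' : V n → V n} (R M : V n ≃ₗ[ZMod 2] V n)
    (H : ∀ x y, pol F' (R x) (R y) = M (pol F x y)) : CCZ F F' := by
  obtain ⟨f, hfd⟩ : ∃ f : V n → V n, ∀ x, f x = F' (R x) + M (F x) := ⟨_, fun _ => rfl⟩
  have hf : ∀ x y, f (x + y) = f x + f y + f 0 := by
    intro x y
    have h1 := H x y
    unfold pol at h1
    rw [← map_add R, map_add M, map_add M, map_add M] at h1
    have h0 : f 0 = F' 0 + M (F 0) := by rw [hfd, map_zero]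
    apply eq_of_add
    rw [h0, hfd, hfd, hfd]
    have h2 : F' (R (x + y)) + F' (R x) + F' (R y) + F' 0 +
        (M (F (x + y)) + M (F x) + M (F y) + M (F 0)) = 0 := by rw [h1, add_self]
    refine Eq.trans ?_ h2
    abel
  let a : V n →+ V n :=
    { toFun := fun x => f x + f 0
      map_zero' := add_self _
      map_add' := fun x y => by
        rw [hf]; abel }
  let aL : V n →ₗ[ZMod 2] V n := a.toZModLinearMap 2
  have haL : ∀ x, F' (R x) = M (F x) + aL x + f 0 := by
    intro x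
    have h1 : aL x = f x + f 0 := rfl
    rw [h1, add_assoc, add_assoc, add_self, add_zero]
    rw [hfd, add_comm (F' (R x)), ← add_assoc, add_self, zero_add]
  let L0 : (V n × V n) ≃ₗ[ZMod 2] (V n × V n) :=
    { toFun := fun p => (R p.1, M p.2 + aL p.1)
      map_add' := fun p q => by
        ext1
        · simp
        · simp only [Prod.snd_add, Prod.fst_add, map_add]; abel
      map_smul' := fun c p => by
        ext1
        · simp
        · simp only [Prod.smul_snd, Prod.smul_fst, map_smul, RingHom.id_apply, smul_add]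
      invFun := fun p => (R.symm p.1, M.symm (p.2 - aL (R.symm p.1)))
      left_inv := fun p => by simp
      right_inv := fun p => by simp }
  refine ⟨L0.toAffineEquiv.trans (AffineEquiv.constVAdd (ZMod 2) (V n × V n) (0, f 0)), ?_⟩
  have happ : ∀ p : V n × V n, (L0.toAffineEquiv.trans
      (AffineEquiv.constVAdd (ZMod 2) (V n × V n) (0, f 0))) p
      = (R p.1, M p.2 + aL p.1 + f 0) := by
    intro p
    simp only [AffineEquiv.trans_apply, AffineEquiv.constVAdd_apply, vadd_eq_add]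
    ext1
    · simp [L0]
    · change f 0 + (M p.2 + aL p.1) = _
      rw [add_comm]
  ext q
  simp only [Set.mem_image, Set.mem_ofPred_eq]
  constructor
  · rintro ⟨p, hp, rfl⟩
    rw [happ]
    simp only
    rw [haL, hp]
  · intro hq
    refine ⟨(R.symm q.1, F (R.symm q.1)), rfl, ?_⟩
    rw [happ]
    simp only
    rw [← haL, LinearEquiv.apply_symm_apply, ← hq]

/-- the polarisation of a quadratic function as a bilinear map, transported -/
noncomputable def bil {F : V n → V n} (hF : IsQuad F) (P Q : V n ≃ₗ[ZMod 2] V n) :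
    V n →ₗ[ZMod 2] V n →ₗ[ZMod 2] V n :=
  LinearMap.mk₂ (ZMod 2) (fun x y => Q (pol F (P.symm x) (P.symm y)))
    (fun x x' y => by rw [map_add, hF, map_add])
    (fun c x y => by
      fin_cases c
      · change Q (pol F (P.symm ((0 : ZMod 2) • x)) (P.symm y)) = (0 : ZMod 2) • _
        rw [zero_smul, zero_smul, map_zero, pol_zero, map_zero]
      · change Q (pol F (P.symm ((1 : ZMod 2) • x)) (P.symm y)) = (1 : ZMod 2) • _
        rw [one_smul, one_smul])
    (fun x y y' => by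
      rw [map_add, pol_symm, hF, map_add, pol_symm, pol_symm F (P.symm y')])
    (fun c x y => by
      fin_cases c
      · change Q (pol F (P.symm x) (P.symm ((0 : ZMod 2) • y))) = (0 : ZMod 2) • _
        rw [zero_smul, zero_smul, map_zero, pol_symm, pol_zero, map_zero]
      · change Q (pol F (P.symm x) (P.symm ((1 : ZMod 2) • y))) = (1 : ZMod 2) • _
        rw [one_smul, one_smul])

theorem bil_apply {F : V n → V n} (hF : IsQuad F) (P Q : V n ≃ₗ[ZMod 2] V n) (x y : V n) :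
    bil hF P Q x y = Q (pol F (P.symm x) (P.symm y)) := rfl

/-- the number of pairs of indices with a given product of eigenvalues -/
theorem pairs_le (hCOUNT : T_COUNT) {k : ℕ} (hk : 1 ≤ k) (hn : 2 * k ≤ n) (l : Fin n → Om)
    (c : Om) (h0 : ∀ i, l i ≠ 0 ∧ ∀ j : ℕ, 1 ≤ j → j ^ k < 2 ^ n → l i ^ j ≠ 1)
    (hsq : ∀ i, ∃ j, l j = l i ^ 2) (hmul : ∀ z, Nat.card {i // l i = z} ≤ k)
    (hc : c ≠ 0 ∧ ∀ j : ℕ, 1 ≤ j → j ^ k < 2 ^ n → c ^ j ≠ 1) :
    Nat.card {p : Fin n × Fin n // l p.1 * l p.2 = c} ≤ 32 * k ^ 4 := by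
  classical
  set L : ℕ := n / (2 * k) with hL
  have hL1 : 1 ≤ L := (Nat.one_le_div_iff (by omega)).2 hn
  have hLk : 2 * L * k ≤ n := by
    have := Nat.div_mul_le_self n (2 * k)
    rw [← hL] at this
    calc 2 * L * k = L * (2 * k) := by ring
      _ ≤ n := this
  have hnL : n ≤ 4 * k * L := by
    have h1 : n < (L + 1) * (2 * k) := by
      have := Nat.lt_div_mul_add (a := n) (b := 2 * k) (by omega)
      rw [← hL] at this
      calc n < L * (2 * k) + 2 * k := this
        _ = (L + 1) * (2 * k) := by ring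
    nlinarith
  have hsmall : ∀ j : ℕ, j < 2 ^ (2 * L) → j ^ k < 2 ^ n := by
    intro j hj
    calc j ^ k < (2 ^ (2 * L)) ^ k := Nat.pow_lt_pow_left hj (by omega)
      _ = 2 ^ (2 * L * k) := by rw [← pow_mul]
      _ ≤ 2 ^ n := Nat.pow_le_pow_right (by norm_num) hLk
  let u : Fin n → Omˣ := fun i => Units.mk0 (l i) (h0 i).1
  have hu : ∀ i, ((u i : Omˣ) : Om) = l i := fun i => rfl
  let E : Finset Omˣ := Finset.univ.image u
  let cu : Omˣ := Units.mk0 c hc.1
  have h1 := hCOUNT Omˣ E cu (2 ^ (2 * L)) L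
    (by
      intro x hx
      obtain ⟨i, -, rfl⟩ := Finset.mem_image.1 hx
      obtain ⟨j, hj⟩ := hsq i
      refine Finset.mem_image.2 ⟨j, Finset.mem_univ _, ?_⟩
      ext
      rw [Units.val_pow_eq_pow_val, hu, hu, hj])
    (by
      intro x _ y _ hxy
      have h2 : (x : Om) ^ 2 = (y : Om) ^ 2 := by
        have := congrArg (fun z : Omˣ => (z : Om)) hxy
        simpa using this
      have h3 : ((x : Om) - y) ^ 2 = 0 := by
        rw [sub_pow_char, h2, sub_self]
      ext
      exact sub_eq_zero.1 (pow_eq_zero_iff two_ne_zero |>.1 h3))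
    (by
      intro x hx j hj hjK h
      obtain ⟨i, -, rfl⟩ := Finset.mem_image.1 hx
      refine (h0 i).2 j hj (hsmall j hjK) ?_
      have := congrArg (fun z : Omˣ => (z : Om)) h
      simpa [hu] using this)
    (by
      intro j hj hjK h
      refine hc.2 j hj (hsmall j hjK) ?_
      have := congrArg (fun z : Omˣ => (z : Om)) h
      simpa [cu] using this)
    le_rfl
  have hE : E.card ≤ n := by
    refine Finset.card_image_le.trans ?_
    simp
  set P := (E ×ˢ E).filter fun p => p.1 * p.2 = cu with hP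
  have hP1 : P.card ≤ 32 * k ^ 2 := by
    have h2 : L ^ 2 * P.card ≤ L ^ 2 * (32 * k ^ 2) := by
      calc L ^ 2 * P.card ≤ 2 * E.card ^ 2 := h1
        _ ≤ 2 * (4 * k * L) ^ 2 :=
          Nat.mul_le_mul_left 2 (Nat.pow_le_pow_left (hE.trans hnL) 2)
        _ = L ^ 2 * (32 * k ^ 2) := by ring
    exact Nat.le_of_mul_le_mul_left h2 (by positivity)
  rw [Nat.card_eq_fintype_card, Fintype.card_subtype]
  have hfib : ∀ z : Om, (Finset.univ.filter fun i => l i = z).card ≤ k := by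
    intro z
    have := hmul z
    rwa [Nat.card_eq_fintype_card, Fintype.card_subtype] at this
  have h3 := Finset.card_le_mul_card_image_of_maps_to
    (s := Finset.univ.filter fun p : Fin n × Fin n => l p.1 * l p.2 = c) (t := P)
    (f := fun p => (u p.1, u p.2))
    (by
      intro p hp
      simp only [Finset.mem_filter, Finset.mem_univ, true_and] at hp
      rw [hP]
      simp only [Finset.mem_filter, Finset.mem_product]
      refine ⟨⟨Finset.mem_image.2 ⟨_, Finset.mem_univ _, rfl⟩,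
        Finset.mem_image.2 ⟨_, Finset.mem_univ _, rfl⟩⟩, ?_⟩
      ext
      rw [Units.val_mul, hu, hu, hp]
      rfl)
    (k * k)
    (by
      intro q _
      calc _ ≤ ((Finset.univ.filter fun i => l i = (q.1 : Om)) ×ˢ
            (Finset.univ.filter fun i => l i = (q.2 : Om))).card := by
            refine Finset.card_le_card fun p hp => ?_
            simp only [Finset.mem_filter, Finset.mem_univ, true_and] at hp
            simp only [Finset.mem_product, Finset.mem_filter, Finset.mem_univ, true_and]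
            rw [← hp.2]
            exact ⟨rfl, rfl⟩
        _ ≤ k * k := by
            rw [Finset.card_product]
            exact Nat.mul_le_mul (hfib _) (hfib _))
  calc _ ≤ k * k * P.card := h3
    _ ≤ k * k * (32 * k ^ 2) := Nat.mul_le_mul_left _ hP1
    _ = 32 * k ^ 4 := by ring

/-- the number of triples of indices -/
theorem triples_le (hCOUNT : T_COUNT) {k : ℕ} (hk : 1 ≤ k) (l m : Fin n → Om)
    (h0 : ∀ i, l i ≠ 0 ∧ ∀ j : ℕ, 1 ≤ j → j ^ k < 2 ^ n → l i ^ j ≠ 1)
    (hsq : ∀ i, ∃ j, l j = l i ^ 2) (hmul : ∀ z, Nat.card {i // l i = z} ≤ k)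
    (hm : ∀ i, m i ≠ 0 ∧ ∀ j : ℕ, 1 ≤ j → j ^ k < 2 ^ n → m i ^ j ≠ 1) :
    Nat.card {p : Fin n × Fin n × Fin n // l p.1 * l p.2.1 = m p.2.2} ≤ 32 * k ^ 4 * n := by
  classical
  have hk2 : k ^ 2 ≤ k ^ 4 := Nat.pow_le_pow_right hk (by norm_num)
  by_cases hn : 2 * k ≤ n
  · let f : {p : Fin n × Fin n × Fin n // l p.1 * l p.2.1 = m p.2.2} →
        Σ r : Fin n, {p : Fin n × Fin n // l p.1 * l p.2 = m r} :=
      fun p => ⟨p.1.2.2, ⟨(p.1.1, p.1.2.1), p.2⟩⟩
    have hf : Function.Injective f := by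
      rintro ⟨⟨a, b, r⟩, h⟩ ⟨⟨a', b', r'⟩, h'⟩ hh
      simp only [f] at hh
      obtain ⟨h1, h2⟩ := Sigma.mk.inj hh
      subst h1
      have h3 := eq_of_heq h2
      simp only [Subtype.mk.injEq, Prod.mk.injEq] at h3
      simp [h3.1, h3.2]
    calc _ ≤ Nat.card (Σ r : Fin n, {p : Fin n × Fin n // l p.1 * l p.2 = m r}) :=
          Nat.card_le_card_of_injective f hf
      _ = ∑ r : Fin n, Nat.card {p : Fin n × Fin n // l p.1 * l p.2 = m r} := Nat.card_sigma
      _ ≤ ∑ _r : Fin n, 32 * k ^ 4 := Finset.sum_le_sum fun r _ =>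
          pairs_le hCOUNT hk hn l (m r) h0 hsq hmul (hm r)
      _ = 32 * k ^ 4 * n := by simp [mul_comm]
  · push Not at hn
    calc _ ≤ Nat.card (Fin n × Fin n × Fin n) :=
          Nat.card_le_card_of_injective _ Subtype.val_injective
      _ = n * (n * n) := by simp
      _ ≤ n * ((2 * k) * (2 * k)) := by gcongr
      _ = 4 * k ^ 2 * n := by ring
      _ ≤ 32 * k ^ 4 * n := by
          refine Nat.mul_le_mul_right _ ?_
          omega

end MAIN_

open MAIN_

/-- the number of bilinear maps equivariant for given maps with long orbits -/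
theorem equiv_le (hGEN : T_GEN) (hCOUNT : T_COUNT) (h1 : T_EIG1) (h2 : T_EIG2) (h3 : T_EIG3)
    (h4 : T_EIG4) (hDIM : T_DIM) {k n : ℕ} (hk : 1 ≤ k) (hn : 1 ≤ n)
    (g h : V n ≃ₗ[ZMod 2] V n) (hg : LongOrb k g) (hh : LongOrb k h)
    (hgo : ∃ N, Odd N ∧ g ^ N = 1) (hho : ∃ N, Odd N ∧ h ^ N = 1) :
    Nat.card {B : V n →ₗ[ZMod 2] V n →ₗ[ZMod 2] V n // ∀ x y, B (g x) (g y) = h (B x y)} ≤
      2 ^ (32 * k ^ 4 * n) := by
  obtain ⟨b, l, hb⟩ := h1 n g hgo
  obtain ⟨c, m, hc⟩ := h1 n h hho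
  refine (hDIM n g h b c l m hb hc).trans (Nat.pow_le_pow_right (by norm_num) ?_)
  exact triples_le hCOUNT hk l m (h2 n k g b l hb hg) (h4 n g b l hb)
    (h3 n k g b l hb (hGEN k n hk hn g hg hgo)) (h2 n k h c m hc hh)

theorem p_MAIN (hCONJ : T_CONJ) (hGEN : T_GEN) (hCOUNT : T_COUNT) (h1 : T_EIG1) (h2 : T_EIG2)
    (h3 : T_EIG3) (h4 : T_EIG4) (hDIM : T_DIM) : T_MAIN := by
  classical
  intro k n hk hn S hS hinj
  obtain ⟨D, _, inv, hD, hconj⟩ := hCONJ k n hk hn
  -- admissible maps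
  let Ad : (V n ≃ₗ[ZMod 2] V n) → Prop := fun g => LongOrb k g ∧ ∃ N, Odd N ∧ g ^ N = 1
  let D' : Type := {d : D // ∃ g, Ad g ∧ inv g = d}
  have hD' : Nat.card D' ≤ (k + 1) * 2 ^ ((n + 1) * k) :=
    (Nat.card_le_card_of_injective _ Subtype.val_injective).trans
      (by rw [Nat.card_eq_fintype_card]; exact hD)
  choose ρ hρ1 hρ2 using fun d : D' => d.2
  let Eq' : D' × D' → Type := fun d =>
    {B : V n →ₗ[ZMod 2] V n →ₗ[ZMod 2] V n // ∀ x y, B (ρ d.1 x) (ρ d.1 y) = ρ d.2 (B x y)}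
  have hEq : ∀ d, Nat.card (Eq' d) ≤ 2 ^ (32 * k ^ 4 * n) := fun d =>
    equiv_le hGEN hCOUNT h1 h2 h3 h4 hDIM hk hn (ρ d.1) (ρ d.2) (hρ1 d.1).1 (hρ1 d.2).1
      (hρ1 d.1).2 (hρ1 d.2).2
  have hfinEnd : Finite (V n →ₗ[ZMod 2] V n) :=
    Finite.of_injective (fun g : V n →ₗ[ZMod 2] V n => (g : V n → V n)) DFunLike.coe_injective
  have hfinB : Finite (V n →ₗ[ZMod 2] V n →ₗ[ZMod 2] V n) :=
    Finite.of_injective (fun g : V n →ₗ[ZMod 2] V n →ₗ[ZMod 2] V n =>
      (g : V n → (V n →ₗ[ZMod 2] V n))) DFunLike.coe_injective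
  have hfin : ∀ d, Finite (Eq' d) := fun d => Subtype.finite
  -- the data of a function
  have hdata : ∀ F : S, ∃ (d : D' × D') (P Q : V n ≃ₗ[ZMod 2] V n) (B : Eq' d),
      ∀ x y, B.1 (P x) (P y) = Q (pol F.1 x y) := by
    intro F
    obtain ⟨hq, hs⟩ := hS F.1 F.2
    obtain ⟨g, h, hg, hh, hgo, hho, hp⟩ := exists_odd hs
    let dg : D' := ⟨inv g, g, ⟨hg, hgo⟩, rfl⟩
    let dh : D' := ⟨inv h, h, ⟨hh, hho⟩, rfl⟩
    obtain ⟨P, hP⟩ := hconj g (ρ dg) hg (hρ1 dg).1 hgo (hρ1 dg).2 (hρ2 dg).symm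
    obtain ⟨Q, hQ⟩ := hconj h (ρ dh) hh (hρ1 dh).1 hho (hρ1 dh).2 (hρ2 dh).symm
    refine ⟨(dg, dh), P, Q, ⟨bil hq P Q, fun x y => ?_⟩, fun x y => ?_⟩
    · rw [bil_apply, bil_apply, ← hQ, ← hp]
      have key : ∀ x, P.symm (ρ dg x) = g (P.symm x) := by
        intro x
        rw [LinearEquiv.symm_apply_eq, hP, LinearEquiv.apply_symm_apply]
      rw [key, key]
    · change bil hq P Q (P x) (P y) = _
      rw [bil_apply, LinearEquiv.symm_apply_apply, LinearEquiv.symm_apply_apply]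
  choose d P Q B hB using hdata
  let Ψ : S → Σ d : D' × D', Eq' d := fun F => ⟨d F, B F⟩
  have hΨ : Function.Injective Ψ := by
    intro F F' hFF
    apply Subtype.ext
    refine hinj F.1 F.2 F'.1 F'.2 ?_
    have hd : d F = d F' := congrArg Sigma.fst hFF
    have hBB : (B F).1 = (B F').1 := by
      have h5 : ∀ (X Y : Σ d : D' × D', Eq' d), X = Y → X.2.1 = Y.2.1 := by
        rintro X Y rfl; rfl
      exact h5 _ _ hFF
    refine ccz_of_pol ((P F).trans (P F').symm) ((Q F).trans (Q F').symm) fun x y => ?_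
    have h5 := hB F' ((P F').symm (P F x)) ((P F').symm (P F y))
    rw [LinearEquiv.apply_symm_apply, LinearEquiv.apply_symm_apply, ← hBB, hB F] at h5
    rw [LinearEquiv.trans_apply, LinearEquiv.trans_apply, LinearEquiv.trans_apply, h5,
      LinearEquiv.symm_apply_apply]
  have hcard : S.card ≤ Nat.card (Σ d : D' × D', Eq' d) := by
    have := Nat.card_le_card_of_injective Ψ hΨ
    simpa using this
  have hfD : Fintype D' := Fintype.ofFinite D'
  calc S.card ≤ Nat.card (Σ d : D' × D', Eq' d) := hcard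
    _ = ∑ d : D' × D', Nat.card (Eq' d) := Nat.card_sigma
    _ ≤ ∑ _d : D' × D', 2 ^ (32 * k ^ 4 * n) := Finset.sum_le_sum fun d _ => hEq d
    _ = Nat.card D' * Nat.card D' * 2 ^ (32 * k ^ 4 * n) := by
        simp [Nat.card_eq_fintype_card, Fintype.card_prod]
    _ ≤ ((k + 1) * 2 ^ ((n + 1) * k)) * ((k + 1) * 2 ^ ((n + 1) * k)) *
        2 ^ (32 * k ^ 4 * n) := by gcongr
    _ ≤ (2 ^ k * 2 ^ ((n + 1) * k)) * (2 ^ k * 2 ^ ((n + 1) * k)) *
        2 ^ (32 * k ^ 4 * n) := by
        have : k + 1 ≤ 2 ^ k := Nat.lt_two_pow_self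
        gcongr
    _ = 2 ^ (k + (n + 1) * k + (k + (n + 1) * k) + 32 * k ^ 4 * n) := by
        simp only [pow_add]
    _ ≤ 2 ^ (40 * k ^ 4 * n) := by
        refine Nat.pow_le_pow_right (by norm_num) ?_
        have h5 : k ≤ k ^ 4 := Nat.le_self_pow (by norm_num) k
        have h6 : k ≤ k * n := Nat.le_mul_of_pos_right k hn
        have h7 : k * n ≤ k ^ 4 * n := Nat.mul_le_mul_right n h5
        nlinarith

end Pool.Agent.SYA
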